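import Mathlib
import Pool.Agent.Helper256.KM.Mertens

set_option autoImplicit false

/-!
Upper bounds for the sums of `z ^ Ω(n)` over `n ≤ N`, for a real `z ∈ (0, 1]`.
-/

namespace Pool.Agent.J6H76.MulEnergy

open Finset ArithmeticFunction

/-- number of prime factors with multiplicity -/
noncomputable abbrev Om (n : ℕ) : ℕ := ArithmeticFunction.cardFactors n

lemma Om_mul {m n : ℕ} (hm : m ≠ 0) (hn : n ≠ 0) : Om (m * n) = Om m + Om n :=
  ArithmeticFunction.cardFactors_mul hm hn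

/-- the completely multiplicative function `z ^ Ω(n) / n` -/
noncomputable def wdiv (z : ℝ) : ℕ →* ℝ where
  toFun n := z ^ Om n / n
  map_one' := by simp [Om]
  map_mul' m n := by
    rcases Nat.eq_zero_or_pos m with rfl | hm
    · simp
    rcases Nat.eq_zero_or_pos n with rfl | hn
    · simp
    rw [Om_mul hm.ne' hn.ne', pow_add]
    push_cast
    rw [mul_div_mul_comm]

lemma wdiv_apply (z : ℝ) (n : ℕ) : wdiv z n = z ^ Om n / n := rfl

/-- `F z N = ∑_{n ≤ N} z ^ Ω(n)` -/
noncomputable def F (z : ℝ) (N : ℕ) : ℝ := ∑ n ∈ Icc 1 N, z ^ Om n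

/-- `M z N = ∑_{n ≤ N} z ^ Ω(n) / n` -/
noncomputable def M (z : ℝ) (N : ℕ) : ℝ := ∑ n ∈ Icc 1 N, z ^ Om n / n

lemma M_nonneg {z : ℝ} (hz : 0 < z) (N : ℕ) : 0 ≤ M z N :=
  Finset.sum_nonneg fun n _ => by positivity

lemma F_nonneg {z : ℝ} (hz : 0 < z) (N : ℕ) : 0 ≤ F z N :=
  Finset.sum_nonneg fun n _ => by positivity

lemma F_mono {z : ℝ} (hz : 0 < z) {m n : ℕ} (h : m ≤ n) : F z m ≤ F z n := by
  unfold F
  exact Finset.sum_le_sum_of_subset_of_nonneg (Finset.Icc_subset_Icc_right h)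
    fun n _ _ => by positivity

lemma F_le_self {z : ℝ} (hz : 0 < z) (hz1 : z ≤ 1) (N : ℕ) : F z N ≤ N := by
  unfold F
  calc ∑ n ∈ Icc 1 N, z ^ Om n ≤ ∑ n ∈ Icc 1 N, (1 : ℝ) :=
        Finset.sum_le_sum fun n _ => pow_le_one₀ hz.le hz1
    _ = N := by simp

/-- Upper bound of `M` by the Euler product. -/
lemma M_le_prod {z : ℝ} (hz : 0 < z) (hz1 : z ≤ 1) (N : ℕ) :
    M z N ≤ ∏ p ∈ (N + 1).primesBelow, (1 - wdiv z p)⁻¹ := by
  have hlt : ∀ {p : ℕ}, p.Prime → ‖wdiv z p‖ < 1 := by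
    intro p hp
    rw [wdiv_apply]
    have h1 : Om p = 1 := ArithmeticFunction.cardFactors_apply_prime hp
    rw [h1, pow_one, Real.norm_eq_abs, abs_of_nonneg (by positivity)]
    have h2 : (2 : ℝ) ≤ p := by exact_mod_cast hp.two_le
    rw [div_lt_one (by linarith)]
    linarith
  obtain ⟨hs, hsum⟩ :=
    EulerProduct.summable_and_hasSum_smoothNumbers_prod_primesBelow_geometric (f := wdiv z)
      hlt (N + 1)
  rw [← hsum.tsum_eq]
  have hmem : ∀ n ∈ Icc 1 N, n ∈ (N + 1).smoothNumbers := by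
    intro n hn
    rw [Finset.mem_Icc] at hn
    rw [Nat.mem_smoothNumbers']
    intro p hp hpn
    have := Nat.le_of_dvd (by omega) hpn
    omega
  have hsr : Summable (fun m : (N + 1).smoothNumbers ↦ wdiv z m) := hsum.summable
  -- sum over the finite subset
  have hnn : ∀ m : (N + 1).smoothNumbers, 0 ≤ wdiv z m := fun m => by
    rw [wdiv_apply]; positivity
  have key := hsr.sum_le_tsum
    ((Icc 1 N).attach.map ⟨fun n => (⟨n.1, hmem n.1 n.2⟩ : (N + 1).smoothNumbers), by
      intro a b hab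
      have : a.1 = b.1 := by simpa using congrArg Subtype.val hab
      exact Subtype.ext this⟩) (fun m _ => hnn m)
  rw [Finset.sum_map] at key
  refine le_trans (le_of_eq ?_) key
  unfold M
  rw [← Finset.sum_attach]
  rfl


lemma inv_one_sub_le {t : ℝ} (h0 : 0 ≤ t) (h1 : t ≤ 1 / 2) :
    (1 - t)⁻¹ ≤ Real.exp (t + 2 * t ^ 2) := by
  have h2 : 0 < 1 - t := by linarith
  have h3 : (1 - t)⁻¹ = t / (1 - t) + 1 := by field_simp; ring
  have h4 : t / (1 - t) ≤ t + 2 * t ^ 2 := by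
    rw [div_le_iff₀ h2]
    nlinarith [sq_nonneg t, mul_nonneg h0 h0, mul_nonneg (mul_nonneg h0 h0) (by linarith : 0 ≤ 1 - 2 * t)]
  rw [h3]
  exact (Real.add_one_le_exp _).trans (Real.exp_le_exp.2 h4)

/-- `∑_{n ≤ N} z ^ Ω(n) / n ≤ C (log N) ^ z`. -/
theorem M_le {z : ℝ} (hz : 0 < z) (hz1 : z ≤ 1) :
    ∃ C : ℝ, 0 < C ∧ ∀ N : ℕ, 3 ≤ N → M z N ≤ C * (Real.log N) ^ z := by
  obtain ⟨C, hC⟩ := Pool.Agent.Helper256.KM.mertens_inv
  have hs : Summable (fun n : ℕ => 1 / (n : ℝ) ^ 2) := Real.summable_one_div_nat_pow.2 (by norm_num)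
  set K : ℝ := ∑' n : ℕ, 1 / (n : ℝ) ^ 2 with hK
  refine ⟨Real.exp (z * C + 2 * K), Real.exp_pos _, fun N hN => ?_⟩
  have hN3 : (3 : ℝ) ≤ N := by exact_mod_cast hN
  have hlogpos : 0 < Real.log N := Real.log_pos (by linarith)
  refine (M_le_prod hz hz1 N).trans ?_
  have hprimes : (N + 1).primesBelow = (Icc 1 N).filter Nat.Prime := by
    ext p
    rw [Nat.mem_primesBelow, Finset.mem_filter, Finset.mem_Icc]
    constructor
    · rintro ⟨h1, h2⟩
      exact ⟨⟨h2.one_lt.le, by omega⟩, h2⟩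
    · rintro ⟨⟨h1, h2⟩, h3⟩
      exact ⟨by omega, h3⟩
  rw [hprimes]
  have hfac : ∀ p ∈ (Icc 1 N).filter Nat.Prime,
      (1 - wdiv z p)⁻¹ ≤ Real.exp (z * (1 / p) + 2 * (1 / (p : ℝ) ^ 2)) := by
    intro p hp
    rw [Finset.mem_filter] at hp
    have h2 : (2 : ℝ) ≤ p := by exact_mod_cast hp.2.two_le
    have hp0 : (0 : ℝ) < p := by linarith
    have h1 : Om p = 1 := ArithmeticFunction.cardFactors_apply_prime hp.2
    rw [wdiv_apply, h1, pow_one]
    have ht0 : 0 ≤ z / p := by positivity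
    have ht1 : z / p ≤ 1 / 2 := by
      rw [div_le_div_iff₀ hp0 (by norm_num)]
      linarith
    refine (inv_one_sub_le ht0 ht1).trans (Real.exp_le_exp.2 ?_)
    have h5 : (z / p) ^ 2 ≤ 1 / (p : ℝ) ^ 2 := by
      rw [div_pow]
      apply div_le_div_of_nonneg_right _ (by positivity)
      exact pow_le_one₀ hz.le hz1
    have h6 : z / p = z * (1 / p) := by ring
    rw [← h6]
    linarith
  have hnn : ∀ p ∈ (Icc 1 N).filter Nat.Prime, 0 ≤ (1 - wdiv z p)⁻¹ := by
    intro p hp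
    rw [Finset.mem_filter] at hp
    have h2 : (2 : ℝ) ≤ p := by exact_mod_cast hp.2.two_le
    have hp0 : (0 : ℝ) < p := by linarith
    have h1 : Om p = 1 := ArithmeticFunction.cardFactors_apply_prime hp.2
    rw [wdiv_apply, h1, pow_one]
    have ht1 : z / p ≤ 1 / 2 := by
      rw [div_le_div_iff₀ hp0 (by norm_num)]
      linarith
    exact inv_nonneg.2 (by linarith)
  refine (Finset.prod_le_prod hnn hfac).trans ?_
  rw [← Real.exp_sum, Finset.sum_add_distrib, ← Finset.mul_sum, ← Finset.mul_sum]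
  have h1 := (abs_le.1 (hC N hN)).2
  have h2 : ∑ p ∈ (Icc 1 N).filter Nat.Prime, 1 / (p : ℝ) ^ 2 ≤ K :=
    hs.sum_le_tsum _ fun n _ => by positivity
  rw [Real.rpow_def_of_pos hlogpos, ← Real.exp_add]
  apply Real.exp_le_exp.2
  nlinarith

/-- `z ^ Ω(n)` as an arithmetic function. -/
noncomputable def wAF (z : ℝ) : ArithmeticFunction ℝ :=
  ⟨fun n => if n = 0 then 0 else z ^ Om n, by simp⟩

lemma wAF_apply {z : ℝ} {n : ℕ} (hn : n ≠ 0) : wAF z n = z ^ Om n := by
  simp [wAF, hn]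

lemma pow_Om_mul_log_le {z : ℝ} (hz : 0 < z) (hz1 : z ≤ 1) {n : ℕ} (hn : n ≠ 0) :
    z ^ Om n * Real.log n ≤ (wAF z * ArithmeticFunction.vonMangoldt) n := by
  rw [ArithmeticFunction.mul_apply, ← ArithmeticFunction.vonMangoldt_sum,
    ← Nat.map_div_left_divisors, Finset.sum_map, Finset.mul_sum]
  have : ∀ x ∈ n.divisors, z ^ Om n * ArithmeticFunction.vonMangoldt x ≤
      wAF z (n / x) * ArithmeticFunction.vonMangoldt x := by
    intro x hx
    rw [Nat.mem_divisors] at hx
    obtain ⟨⟨m, rfl⟩, h2⟩ := hx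
    have hx0 : x ≠ 0 := by rintro rfl; simp at h2
    have hm0 : m ≠ 0 := by rintro rfl; simp at h2
    rw [Nat.mul_div_cancel_left _ (Nat.pos_of_ne_zero hx0), wAF_apply hm0, Om_mul hx0 hm0]
    apply mul_le_mul_of_nonneg_right _ ArithmeticFunction.vonMangoldt_nonneg
    exact pow_le_pow_of_le_one hz.le hz1 (by omega)
  exact Finset.sum_le_sum this

lemma sum_vonMangoldt_le (n : ℕ) :
    ∑ m ∈ Ioc 0 n, ArithmeticFunction.vonMangoldt m ≤ (Real.log 4 + 4) * n := by
  have h := Chebyshev.psi_le_const_mul_self (x := (n : ℝ)) (by positivity)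
  rwa [Chebyshev.psi, Nat.floor_natCast] at h

lemma F_mul_log_le {z : ℝ} (hz : 0 < z) (hz1 : z ≤ 1) (N : ℕ) (hN : 1 ≤ N) :
    F z N * Real.log N ≤ (Real.log 4 + 5) * (N * M z N) := by
  have hN0 : (0 : ℝ) < N := by exact_mod_cast hN
  have hIoc : Icc 1 N = Ioc 0 N := by
    ext x; simp [Nat.succ_le_iff]
  have h1 : F z N * Real.log N ≤ ∑ n ∈ Icc 1 N, z ^ Om n * Real.log n + N * M z N := by
    unfold F M
    rw [Finset.sum_mul, Finset.mul_sum, ← Finset.sum_add_distrib]
    refine Finset.sum_le_sum fun n hn => ?_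
    rw [Finset.mem_Icc] at hn
    have hn0 : (0 : ℝ) < n := by exact_mod_cast hn.1
    have h2 : Real.log N = Real.log n + Real.log (N / n) := by
      rw [Real.log_div hN0.ne' hn0.ne']; ring
    have h3 : Real.log (N / n) ≤ N / n := (Real.log_le_self (by positivity))
    rw [h2, mul_add]
    have h4 : 0 < z ^ Om n := by positivity
    have h5 : z ^ Om n * Real.log (N / n) ≤ N * (z ^ Om n / n) := by
      calc z ^ Om n * Real.log (N / n) ≤ z ^ Om n * (N / n) := mul_le_mul_of_nonneg_left h3 h4.le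
        _ = N * (z ^ Om n / n) := by ring
    linarith
  have h2 : ∑ n ∈ Icc 1 N, z ^ Om n * Real.log n ≤ (Real.log 4 + 4) * (N * M z N) := by
    calc ∑ n ∈ Icc 1 N, z ^ Om n * Real.log n
        ≤ ∑ n ∈ Ioc 0 N, (wAF z * ArithmeticFunction.vonMangoldt) n := by
          rw [hIoc]
          exact Finset.sum_le_sum fun n hn =>
            pow_Om_mul_log_le hz hz1 (by rw [Finset.mem_Ioc] at hn; omega)
      _ = ∑ n ∈ Ioc 0 N, wAF z n * ∑ m ∈ Ioc 0 (N / n), ArithmeticFunction.vonMangoldt m :=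
          ArithmeticFunction.sum_Ioc_mul_eq_sum_sum _ _ _
      _ ≤ ∑ n ∈ Ioc 0 N, (Real.log 4 + 4) * (N * (z ^ Om n / n)) := by
          refine Finset.sum_le_sum fun n hn => ?_
          rw [Finset.mem_Ioc] at hn
          have hn0 : (0 : ℝ) < n := by exact_mod_cast hn.1
          rw [wAF_apply (by omega)]
          have h3 : ((N / n : ℕ) : ℝ) ≤ N / n := Nat.cast_div_le
          have h4 := sum_vonMangoldt_le (N / n)
          have h5 : 0 < Real.log 4 + 4 := by
            have := Real.log_pos (show (1 : ℝ) < 4 by norm_num)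
            linarith
          have h6 : 0 < z ^ Om n := by positivity
          calc z ^ Om n * ∑ m ∈ Ioc 0 (N / n), ArithmeticFunction.vonMangoldt m
              ≤ z ^ Om n * ((Real.log 4 + 4) * (N / n)) :=
                mul_le_mul_of_nonneg_left
                  (h4.trans (mul_le_mul_of_nonneg_left h3 h5.le)) h6.le
            _ = (Real.log 4 + 4) * (N * (z ^ Om n / n)) := by ring
      _ = (Real.log 4 + 4) * (N * M z N) := by
          unfold M
          rw [hIoc, Finset.mul_sum, Finset.mul_sum]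
  linarith

/-- `∑_{n ≤ N} z ^ Ω(n) ≤ C N (1 + log N) ^ (z - 1)` for all `N ≥ 1`. -/
theorem F_le {z : ℝ} (hz : 0 < z) (hz1 : z ≤ 1) :
    ∃ C : ℝ, 0 < C ∧ ∀ N : ℕ, 1 ≤ N → F z N ≤ C * (N * (1 + Real.log N) ^ (z - 1)) := by
  obtain ⟨C, hC0, hC⟩ := M_le hz hz1
  have hl4 : 0 < Real.log 4 + 5 := by
    have := Real.log_pos (show (1 : ℝ) < 4 by norm_num)
    linarith
  refine ⟨2 * ((Real.log 4 + 5) * C) + 3, by positivity, fun N hN => ?_⟩
  have hN1 : (1 : ℝ) ≤ N := by exact_mod_cast hN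
  have hlog0 : 0 ≤ Real.log N := Real.log_nonneg hN1
  have hpos : 0 < (1 + Real.log N) ^ (z - 1) := by positivity
  rcases Nat.lt_or_ge N 3 with hlt | hge
  · -- small N
    have h1 : F z N ≤ N := F_le_self hz hz1 N
    have h2 : (1 : ℝ) ≤ 3 * (1 + Real.log N) ^ (z - 1) := by
      have h3 : (1 + Real.log N) ^ (z - 1) = ((1 + Real.log N) ^ (1 - z))⁻¹ := by
        rw [← Real.rpow_neg (by positivity)]; ring_nf
      rw [h3]
      have hN2 : (N : ℝ) ≤ 2 := by exact_mod_cast Nat.lt_succ_iff.1 hlt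
      have h4 : Real.log N ≤ 2 := (Real.log_le_self (by positivity)).trans hN2
      have h5 : (1 + Real.log N) ^ (1 - z) ≤ 3 := by
        calc (1 + Real.log N) ^ (1 - z) ≤ (1 + Real.log N) ^ (1 : ℝ) :=
              Real.rpow_le_rpow_of_exponent_le (by linarith) (by linarith)
          _ = 1 + Real.log N := Real.rpow_one _
          _ ≤ 3 := by linarith
      have h6 : 0 < (1 + Real.log N) ^ (1 - z) := by positivity
      rw [← div_eq_mul_inv, le_div_iff₀ h6]
      linarith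
    have h7 : (N : ℝ) ≤ 3 * (N * (1 + Real.log N) ^ (z - 1)) := by nlinarith
    have h8 : 0 ≤ 2 * ((Real.log 4 + 5) * C) * (N * (1 + Real.log N) ^ (z - 1)) := by positivity
    nlinarith
  · have hN3 : (3 : ℝ) ≤ N := by exact_mod_cast hge
    have hlogge : 1 ≤ Real.log N := by
      rw [Real.le_log_iff_exp_le (by linarith)]
      have := Real.exp_one_lt_d9
      linarith
    have hlogpos : 0 < Real.log N := by linarith
    have h1 := F_mul_log_le hz hz1 N hN
    have h2 := hC N hge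
    have h3 : F z N * Real.log N ≤ (Real.log 4 + 5) * (N * (C * Real.log N ^ z)) :=
      h1.trans (mul_le_mul_of_nonneg_left (mul_le_mul_of_nonneg_left h2 (by linarith)) hl4.le)
    have h4 : F z N ≤ (Real.log 4 + 5) * C * (N * Real.log N ^ (z - 1)) := by
      have h5 : Real.log N ^ z = Real.log N ^ (z - 1) * Real.log N := by
        rw [Real.rpow_sub_one hlogpos.ne', div_mul_cancel₀ _ hlogpos.ne']
      rw [h5] at h3
      have h6 : F z N * Real.log N ≤
          ((Real.log 4 + 5) * C * (N * Real.log N ^ (z - 1))) * Real.log N := by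
        calc F z N * Real.log N ≤ _ := h3
          _ = _ := by ring
      exact le_of_mul_le_mul_right h6 hlogpos
    have h7 : Real.log N ^ (z - 1) ≤ 2 * (1 + Real.log N) ^ (z - 1) := by
      have e1 : Real.log N ^ (z - 1) = (Real.log N ^ (1 - z))⁻¹ := by
        rw [← Real.rpow_neg (by positivity)]; ring_nf
      have e2 : (1 + Real.log N) ^ (z - 1) = ((1 + Real.log N) ^ (1 - z))⁻¹ := by
        rw [← Real.rpow_neg (by positivity)]; ring_nf
      have e3 : (1 + Real.log N) ^ (1 - z) ≤ 2 * Real.log N ^ (1 - z) := by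
        calc (1 + Real.log N) ^ (1 - z) ≤ (2 * Real.log N) ^ (1 - z) :=
              Real.rpow_le_rpow (by positivity) (by linarith) (by linarith)
          _ = 2 ^ (1 - z) * Real.log N ^ (1 - z) := Real.mul_rpow (by norm_num) hlog0
          _ ≤ 2 ^ (1 : ℝ) * Real.log N ^ (1 - z) := by
              apply mul_le_mul_of_nonneg_right _ (by positivity)
              exact Real.rpow_le_rpow_of_exponent_le (by norm_num) (by linarith)
          _ = 2 * Real.log N ^ (1 - z) := by rw [Real.rpow_one]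
      rw [e1, e2, ← div_eq_mul_inv, inv_eq_one_div, div_le_div_iff₀ (by positivity) (by positivity)]
      linarith
    have h8 : (Real.log 4 + 5) * C * (N * Real.log N ^ (z - 1)) ≤
        (Real.log 4 + 5) * C * (N * (2 * (1 + Real.log N) ^ (z - 1))) := by
      apply mul_le_mul_of_nonneg_left _ (by positivity)
      exact mul_le_mul_of_nonneg_left h7 (by linarith)
    have h9 : 0 ≤ 3 * (N * (1 + Real.log N) ^ (z - 1)) := by positivity
    nlinarith

end Pool.Agent.J6H76.MulEnergy
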