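import Mathlib
import Pool.Agent.J6H76.MulEnergy.Upper

set_option autoImplicit false

/-!
The mixed multiplicative energy and a weighted upper bound for it.
-/

namespace Pool.Agent.J6H76.MulEnergy

open Finset ArithmeticFunction

/-- The number of `(a, b, c, d)` with `a, c ∈ B`, `1 ≤ b, d ≤ N` and `a b = c d`. -/
def energy (B : Finset ℕ) (N : ℕ) : ℕ :=
  ((B ×ˢ Icc 1 N ×ˢ B ×ˢ Icc 1 N).filter (fun t => t.1 * t.2.1 = t.2.2.1 * t.2.2.2)).card

/-- The number of `(b, d)` with `1 ≤ b, d ≤ N` and `a b = c d`. -/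
def pairE (N a c : ℕ) : ℕ :=
  ((Icc 1 N ×ˢ Icc 1 N).filter (fun t => a * t.1 = c * t.2)).card

lemma energy_eq (B : Finset ℕ) (N : ℕ) :
    energy B N = ∑ a ∈ B, ∑ c ∈ B, pairE N a c := by
  unfold energy pairE
  simp only [Finset.card_filter, Finset.sum_product]
  refine Finset.sum_congr rfl fun a _ => ?_
  rw [Finset.sum_comm]

/-- the diagonal terms -/
lemma pairE_self {N a : ℕ} (ha : a ≠ 0) : pairE N a a = N := by
  unfold pairE
  have : (Icc 1 N ×ˢ Icc 1 N).filter (fun t => a * t.1 = a * t.2) =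
      (Icc 1 N).image (fun b => (b, b)) := by
    ext ⟨b, d⟩
    simp only [Finset.mem_filter, Finset.mem_product, Finset.mem_image, Prod.mk.injEq]
    constructor
    · rintro ⟨⟨h1, h2⟩, h3⟩
      have : b = d := Nat.eq_of_mul_eq_mul_left (Nat.pos_of_ne_zero ha) h3
      exact ⟨b, h1, rfl, this⟩
    · rintro ⟨x, hx, rfl, rfl⟩
      exact ⟨⟨hx, hx⟩, rfl⟩
  rw [this, Finset.card_image_of_injective]
  · simp
  · intro x y h
    simpa using h

lemma pairE_le {N g x y : ℕ} (hg : 0 < g) (hx : 0 < x) (hy : 0 < y) (hxy : Nat.Coprime x y) :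
    pairE N (g * x) (g * y) ≤ N / max x y := by
  unfold pairE
  have hm : 0 < max x y := lt_max_of_lt_left hx
  calc ((Icc 1 N ×ˢ Icc 1 N).filter (fun t => g * x * t.1 = g * y * t.2)).card
      ≤ ((Icc 1 (N / max x y)).image (fun h => (h * y, h * x))).card := by
        apply Finset.card_le_card
        rintro ⟨b, d⟩ hbd
        simp only [Finset.mem_filter, Finset.mem_product, Finset.mem_image, Finset.mem_Icc] at hbd ⊢
        obtain ⟨⟨⟨hb1, hb2⟩, hd1, hd2⟩, h3⟩ := hbd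
        have h4 : x * b = y * d := by
          apply Nat.eq_of_mul_eq_mul_left hg
          rw [← mul_assoc, ← mul_assoc]; exact h3
        have h5 : y ∣ b := by
          have : y ∣ x * b := ⟨d, h4⟩
          exact (Nat.Coprime.dvd_of_dvd_mul_left hxy.symm this)
        obtain ⟨h, rfl⟩ := h5
        have h6 : d = h * x := by
          have : y * (x * h) = y * d := by rw [← h4]; ring
          have := Nat.eq_of_mul_eq_mul_left hy this
          rw [← this]; ring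
        refine ⟨h, ⟨?_, ?_⟩, ?_⟩
        · rcases Nat.eq_zero_or_pos h with rfl | hh
          · simp at hb1
          · exact hh
        · rw [Nat.le_div_iff_mul_le hm]
          rcases le_total x y with hle | hle
          · rw [max_eq_right hle]; linarith [mul_comm y h]
          · rw [max_eq_left hle, ← h6]; exact hd2
        · rw [h6, mul_comm y h]
    _ ≤ (Icc 1 (N / max x y)).card := Finset.card_image_le
    _ = N / max x y := by simp

/-- the weight `2 ^ (-Ω(n))` -/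
noncomputable def u (n : ℕ) : ℝ := (1 / 2 : ℝ) ^ Om n

lemma u_pos (n : ℕ) : 0 < u n := by unfold u; positivity

lemma u_mul {m n : ℕ} (hm : m ≠ 0) (hn : n ≠ 0) : u (m * n) = u m * u n := by
  unfold u; rw [Om_mul hm hn, pow_add]

/-- first step: parametrize `a = g x`, `c = g y`. -/
lemma weighted_le (N : ℕ) :
    ∑ a ∈ Icc 1 N, ∑ c ∈ Icc 1 N, u a * u c * pairE N a c ≤
      ∑ p ∈ Icc 1 N ×ˢ Icc 1 N, u p.1 * u p.2 *
        (((N / max p.1 p.2 : ℕ) : ℝ) * F (1 / 4) (N / max p.1 p.2)) := by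
  have hR : ∑ p ∈ Icc 1 N ×ˢ Icc 1 N, u p.1 * u p.2 *
        (((N / max p.1 p.2 : ℕ) : ℝ) * F (1 / 4) (N / max p.1 p.2)) =
      ∑ q ∈ (Icc 1 N ×ˢ Icc 1 N).sigma (fun p => Icc 1 (N / max p.1 p.2)),
        u q.1.1 * u q.1.2 * u q.2 ^ 2 * ((N / max q.1.1 q.1.2 : ℕ) : ℝ) := by
    rw [Finset.sum_sigma]
    refine Finset.sum_congr rfl fun p _ => ?_
    unfold F
    rw [Finset.mul_sum, Finset.mul_sum]
    refine Finset.sum_congr rfl fun g _ => ?_
    have : u g ^ 2 = (1 / 4 : ℝ) ^ Om g := by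
      unfold u
      rw [← pow_mul, mul_comm, pow_mul]
      norm_num
    rw [this]; ring
  rw [hR, ← Finset.sum_product']
  let φ : ℕ × ℕ → (Σ _ : ℕ × ℕ, ℕ) := fun p =>
    ⟨(p.1 / Nat.gcd p.1 p.2, p.2 / Nat.gcd p.1 p.2), Nat.gcd p.1 p.2⟩
  have hinj : Set.InjOn φ ((Icc 1 N ×ˢ Icc 1 N : Finset (ℕ × ℕ)) : Set (ℕ × ℕ)) := by
    rintro ⟨a, c⟩ _ ⟨a', c'⟩ _ h
    simp only [φ, Sigma.mk.injEq, Prod.mk.injEq, heq_eq_eq] at h
    obtain ⟨⟨h1, h2⟩, h3⟩ := h
    have e1 : a = a / Nat.gcd a c * Nat.gcd a c := (Nat.div_mul_cancel (Nat.gcd_dvd_left a c)).symm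
    have e2 : a' = a' / Nat.gcd a' c' * Nat.gcd a' c' :=
      (Nat.div_mul_cancel (Nat.gcd_dvd_left a' c')).symm
    have e3 : c = c / Nat.gcd a c * Nat.gcd a c := (Nat.div_mul_cancel (Nat.gcd_dvd_right a c)).symm
    have e4 : c' = c' / Nat.gcd a' c' * Nat.gcd a' c' :=
      (Nat.div_mul_cancel (Nat.gcd_dvd_right a' c')).symm
    have h5 : a = a' := by rw [e1, h1, h3, ← e2]
    have h6 : c = c' := by rw [e3, h2, h3, ← e4]
    rw [h5, h6]
  have hmaps : (Icc 1 N ×ˢ Icc 1 N).image φ ⊆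
      (Icc 1 N ×ˢ Icc 1 N).sigma (fun p => Icc 1 (N / max p.1 p.2)) := by
    intro q hq
    rw [Finset.mem_image] at hq
    obtain ⟨⟨a, c⟩, hac, rfl⟩ := hq
    rw [Finset.mem_product, Finset.mem_Icc, Finset.mem_Icc] at hac
    obtain ⟨⟨ha1, ha2⟩, hc1, hc2⟩ := hac
    dsimp only at ha1 ha2 hc1 hc2
    have hg : 0 < Nat.gcd a c := Nat.gcd_pos_of_pos_left _ ha1
    have hga : Nat.gcd a c ∣ a := Nat.gcd_dvd_left a c
    have hgc : Nat.gcd a c ∣ c := Nat.gcd_dvd_right a c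
    have hx : 0 < a / Nat.gcd a c := Nat.div_pos (Nat.le_of_dvd ha1 hga) hg
    have hy : 0 < c / Nat.gcd a c := Nat.div_pos (Nat.le_of_dvd hc1 hgc) hg
    rw [Finset.mem_sigma, Finset.mem_product, Finset.mem_Icc, Finset.mem_Icc, Finset.mem_Icc]
    refine ⟨⟨⟨hx, (Nat.div_le_self _ _).trans ha2⟩, hy, (Nat.div_le_self _ _).trans hc2⟩, hg, ?_⟩
    show Nat.gcd a c ≤ N / max (a / Nat.gcd a c) (c / Nat.gcd a c)
    rw [Nat.le_div_iff_mul_le (lt_max_of_lt_left hx)]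
    rcases le_total (a / Nat.gcd a c) (c / Nat.gcd a c) with hle | hle
    · rw [max_eq_right hle, Nat.mul_div_cancel' hgc]; exact hc2
    · rw [max_eq_left hle, Nat.mul_div_cancel' hga]; exact ha2
  calc ∑ p ∈ Icc 1 N ×ˢ Icc 1 N, u p.1 * u p.2 * (pairE N p.1 p.2 : ℝ)
      ≤ ∑ p ∈ Icc 1 N ×ˢ Icc 1 N, u (φ p).1.1 * u (φ p).1.2 * u (φ p).2 ^ 2 *
          ((N / max (φ p).1.1 (φ p).1.2 : ℕ) : ℝ) := by
        refine Finset.sum_le_sum fun p hp => ?_
        obtain ⟨a, c⟩ := p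
        rw [Finset.mem_product, Finset.mem_Icc, Finset.mem_Icc] at hp
        obtain ⟨⟨ha1, ha2⟩, hc1, hc2⟩ := hp
        dsimp only at ha1 ha2 hc1 hc2
        have hg : 0 < Nat.gcd a c := Nat.gcd_pos_of_pos_left _ ha1
        have hga : Nat.gcd a c ∣ a := Nat.gcd_dvd_left a c
        have hgc : Nat.gcd a c ∣ c := Nat.gcd_dvd_right a c
        have hx : 0 < a / Nat.gcd a c := Nat.div_pos (Nat.le_of_dvd ha1 hga) hg
        have hy : 0 < c / Nat.gcd a c := Nat.div_pos (Nat.le_of_dvd hc1 hgc) hg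
        have hcop : Nat.Coprime (a / Nat.gcd a c) (c / Nat.gcd a c) := Nat.coprime_div_gcd_div_gcd hg
        have ea : Nat.gcd a c * (a / Nat.gcd a c) = a := Nat.mul_div_cancel' hga
        have ec : Nat.gcd a c * (c / Nat.gcd a c) = c := Nat.mul_div_cancel' hgc
        have hle := pairE_le (N := N) hg hx hy hcop
        rw [ea, ec] at hle
        have hua : u a = u (Nat.gcd a c) * u (a / Nat.gcd a c) := by
          rw [← u_mul hg.ne' hx.ne', ea]
        have huc : u c = u (Nat.gcd a c) * u (c / Nat.gcd a c) := by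
          rw [← u_mul hg.ne' hy.ne', ec]
        show u a * u c * (pairE N a c : ℝ) ≤ u (a / Nat.gcd a c) * u (c / Nat.gcd a c) *
          u (Nat.gcd a c) ^ 2 * ((N / max (a / Nat.gcd a c) (c / Nat.gcd a c) : ℕ) : ℝ)
        rw [hua, huc]
        have h1 : (pairE N a c : ℝ) ≤ ((N / max (a / Nat.gcd a c) (c / Nat.gcd a c) : ℕ) : ℝ) := by
          exact_mod_cast hle
        have p1 := u_pos (Nat.gcd a c)
        have p2 := u_pos (a / Nat.gcd a c)
        have p3 := u_pos (c / Nat.gcd a c)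
        calc u (Nat.gcd a c) * u (a / Nat.gcd a c) * (u (Nat.gcd a c) * u (c / Nat.gcd a c)) *
              (pairE N a c : ℝ)
            ≤ u (Nat.gcd a c) * u (a / Nat.gcd a c) * (u (Nat.gcd a c) * u (c / Nat.gcd a c)) *
              ((N / max (a / Nat.gcd a c) (c / Nat.gcd a c) : ℕ) : ℝ) :=
              mul_le_mul_of_nonneg_left h1 (by positivity)
          _ = _ := by ring
    _ = ∑ q ∈ (Icc 1 N ×ˢ Icc 1 N).image φ, u q.1.1 * u q.1.2 * u q.2 ^ 2 *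
          ((N / max q.1.1 q.1.2 : ℕ) : ℝ) := by
        rw [Finset.sum_image hinj]
    _ ≤ _ := by
        refine Finset.sum_le_sum_of_subset_of_nonneg hmaps fun q _ _ => ?_
        have p1 := u_pos q.1.1
        have p2 := u_pos q.1.2
        positivity

lemma F_half_eq (n : ℕ) : F (1 / 2) n = ∑ x ∈ Icc 1 n, u x := rfl

/-- second step: dyadic grouping according to `max x y`. -/
lemma dyadic_le (N : ℕ) :
    ∑ p ∈ Icc 1 N ×ˢ Icc 1 N, u p.1 * u p.2 *
        (((N / max p.1 p.2 : ℕ) : ℝ) * F (1 / 4) (N / max p.1 p.2)) ≤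
      ∑ i ∈ range (Nat.log 2 N + 1), F (1 / 2) (2 ^ (i + 1)) ^ 2 *
        ((2 : ℝ) ^ (Nat.log 2 N + 1 - i) * F (1 / 4) (2 ^ (Nat.log 2 N + 1 - i))) := by
  have hmaps : ∀ p ∈ Icc 1 N ×ˢ Icc 1 N,
      Nat.log 2 (max p.1 p.2) ∈ range (Nat.log 2 N + 1) := by
    intro p hp
    rw [Finset.mem_product, Finset.mem_Icc, Finset.mem_Icc] at hp
    rw [Finset.mem_range, Nat.lt_succ_iff]
    exact Nat.log_mono_right (max_le hp.1.2 hp.2.2)
  rw [← Finset.sum_fiberwise_of_maps_to hmaps]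
  refine Finset.sum_le_sum fun i hi => ?_
  rw [Finset.mem_range] at hi
  set n0 := Nat.log 2 N with hn0
  have hF4 : 0 ≤ F (1 / 4) (2 ^ (n0 + 1 - i)) := F_nonneg (by norm_num) _
  calc ∑ p ∈ (Icc 1 N ×ˢ Icc 1 N).filter (fun p => Nat.log 2 (max p.1 p.2) = i),
        u p.1 * u p.2 * (((N / max p.1 p.2 : ℕ) : ℝ) * F (1 / 4) (N / max p.1 p.2))
      ≤ ∑ p ∈ (Icc 1 N ×ˢ Icc 1 N).filter (fun p => Nat.log 2 (max p.1 p.2) = i),
        u p.1 * u p.2 * ((2 : ℝ) ^ (n0 + 1 - i) * F (1 / 4) (2 ^ (n0 + 1 - i))) := by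
        refine Finset.sum_le_sum fun p hp => ?_
        rw [Finset.mem_filter, Finset.mem_product, Finset.mem_Icc, Finset.mem_Icc] at hp
        obtain ⟨⟨⟨h1, h2⟩, h3, h4⟩, h5⟩ := hp
        have hm : max p.1 p.2 ≠ 0 := by
          have := le_max_left p.1 p.2
          omega
        have h6 : 2 ^ i ≤ max p.1 p.2 := by
          rw [← h5]; exact Nat.pow_log_le_self 2 hm
        have h7 : N / max p.1 p.2 ≤ 2 ^ (n0 + 1 - i) := by
          calc N / max p.1 p.2 ≤ N / 2 ^ i := Nat.div_le_div_left h6 (by positivity)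
            _ ≤ 2 ^ (n0 + 1) / 2 ^ i := Nat.div_le_div_right (Nat.lt_pow_succ_log_self (by norm_num) N).le
            _ = 2 ^ (n0 + 1 - i) := Nat.pow_div (by omega) (by norm_num)
        have h8 : ((N / max p.1 p.2 : ℕ) : ℝ) ≤ (2 : ℝ) ^ (n0 + 1 - i) := by exact_mod_cast h7
        have h9 := F_mono (z := 1 / 4) (by norm_num) h7
        have p2 := u_pos p.1
        have p3 := u_pos p.2
        apply mul_le_mul_of_nonneg_left _ (by positivity)
        exact mul_le_mul h8 h9 (F_nonneg (by norm_num) _) (by positivity)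
    _ ≤ ∑ p ∈ Icc 1 (2 ^ (i + 1)) ×ˢ Icc 1 (2 ^ (i + 1)),
        u p.1 * u p.2 * ((2 : ℝ) ^ (n0 + 1 - i) * F (1 / 4) (2 ^ (n0 + 1 - i))) := by
        apply Finset.sum_le_sum_of_subset_of_nonneg
        · intro p hp
          rw [Finset.mem_filter, Finset.mem_product, Finset.mem_Icc, Finset.mem_Icc] at hp
          obtain ⟨⟨⟨h1, h2⟩, h3, h4⟩, h5⟩ := hp
          have h6 : max p.1 p.2 < 2 ^ (i + 1) := by
            rw [← h5]; exact Nat.lt_pow_succ_log_self (by norm_num) _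
          have h7 := le_max_left p.1 p.2
          have h8 := le_max_right p.1 p.2
          rw [Finset.mem_product, Finset.mem_Icc, Finset.mem_Icc]
          exact ⟨⟨h1, by omega⟩, h3, by omega⟩
        · intro p _ _
          have p2 := u_pos p.1
          have p3 := u_pos p.2
          positivity
    _ = F (1 / 2) (2 ^ (i + 1)) ^ 2 * ((2 : ℝ) ^ (n0 + 1 - i) * F (1 / 4) (2 ^ (n0 + 1 - i))) := by
        rw [← Finset.sum_mul, sq, F_half_eq, Finset.sum_mul_sum, Finset.sum_product]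

lemma F_two_pow_le {z : ℝ} (hz : 0 < z) (hz1 : z ≤ 1) :
    ∃ C : ℝ, 0 < C ∧ ∀ j : ℕ, F z (2 ^ j) ≤ C * (2 ^ j * ((j : ℝ) + 1) ^ (z - 1)) := by
  obtain ⟨C, hC0, hC⟩ := F_le hz hz1
  refine ⟨C * 2, by positivity, fun j => ?_⟩
  have h1 := hC (2 ^ j) Nat.one_le_two_pow
  refine h1.trans ?_
  push_cast
  rw [Real.log_pow]
  have hl2 := Real.log_two_gt_d9
  have h2 : (1 + (j : ℝ) * Real.log 2) ^ (z - 1) ≤ 2 * ((j : ℝ) + 1) ^ (z - 1) := by
    have e1 : (1 + (j : ℝ) * Real.log 2) ^ (z - 1) = ((1 + (j : ℝ) * Real.log 2) ^ (1 - z))⁻¹ := by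
      rw [← Real.rpow_neg (by positivity)]; ring_nf
    have e2 : ((j : ℝ) + 1) ^ (z - 1) = (((j : ℝ) + 1) ^ (1 - z))⁻¹ := by
      rw [← Real.rpow_neg (by positivity)]; ring_nf
    have hj : (0 : ℝ) ≤ j := by positivity
    have e3 : ((j : ℝ) + 1) ^ (1 - z) ≤ 2 * (1 + (j : ℝ) * Real.log 2) ^ (1 - z) := by
      calc ((j : ℝ) + 1) ^ (1 - z) ≤ (2 * (1 + (j : ℝ) * Real.log 2)) ^ (1 - z) :=
            Real.rpow_le_rpow (by positivity) (by nlinarith) (by linarith)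
        _ = 2 ^ (1 - z) * (1 + (j : ℝ) * Real.log 2) ^ (1 - z) :=
            Real.mul_rpow (by norm_num) (by positivity)
        _ ≤ 2 ^ (1 : ℝ) * (1 + (j : ℝ) * Real.log 2) ^ (1 - z) := by
            apply mul_le_mul_of_nonneg_right _ (by positivity)
            exact Real.rpow_le_rpow_of_exponent_le (by norm_num) (by linarith)
        _ = 2 * (1 + (j : ℝ) * Real.log 2) ^ (1 - z) := by rw [Real.rpow_one]
    rw [e1, e2, ← div_eq_mul_inv, inv_eq_one_div, div_le_div_iff₀ (by positivity) (by positivity)]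
    linarith
  calc C * (2 ^ j * (1 + (j : ℝ) * Real.log 2) ^ (z - 1))
      ≤ C * (2 ^ j * (2 * ((j : ℝ) + 1) ^ (z - 1))) := by
        apply mul_le_mul_of_nonneg_left _ hC0.le
        exact mul_le_mul_of_nonneg_left h2 (by positivity)
    _ = _ := by ring

lemma convolution_sum_le (n : ℕ) :
    ∑ i ∈ range (n + 1), ((i : ℝ) + 2)⁻¹ * (((n + 2 - i : ℕ) : ℝ)) ^ (-(3 / 4) : ℝ) ≤
      2 * ((n : ℝ) + 4) ^ (-(3 / 4) : ℝ) * (1 + Real.log (n + 2)) := by
  have hterm : ∀ i ∈ range (n + 1),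
      ((i : ℝ) + 2)⁻¹ * (((n + 2 - i : ℕ) : ℝ)) ^ (-(3 / 4) : ℝ) ≤
      ((n : ℝ) + 4) ^ (-(3 / 4) : ℝ) * (((i : ℝ) + 1)⁻¹ + ((((n + 1 - 1 - i : ℕ)) : ℝ) + 1)⁻¹) := by
    intro i hi
    rw [Finset.mem_range, Nat.lt_succ_iff] at hi
    have hq : (((n + 2 - i : ℕ) : ℝ)) = (n : ℝ) + 2 - i := by
      rw [Nat.cast_sub (by omega)]; push_cast; ring
    have hq' : (((n + 1 - 1 - i : ℕ)) : ℝ) = (n : ℝ) - i := by
      rw [Nat.add_sub_cancel, Nat.cast_sub hi]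
    rw [hq, hq']
    have hin : (i : ℝ) ≤ n := by exact_mod_cast hi
    have hi0 : (0 : ℝ) ≤ i := by positivity
    set p : ℝ := (i : ℝ) + 2 with hp
    set q : ℝ := (n : ℝ) + 2 - i with hqd
    have hp0 : 0 < p := by positivity
    have hq0 : 0 < q := by rw [hqd]; linarith
    have hpq : (n : ℝ) + 4 = p + q := by rw [hp, hqd]; ring
    rw [hpq]
    have e1 : q ^ (-(3 / 4) : ℝ) = q ^ (1 / 4 : ℝ) * q⁻¹ := by
      rw [← Real.rpow_neg_one q, ← Real.rpow_add hq0]; norm_num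
    have e2 : (p + q) ^ (-(3 / 4) : ℝ) = (p + q) ^ (1 / 4 : ℝ) * (p + q)⁻¹ := by
      rw [← Real.rpow_neg_one (p + q), ← Real.rpow_add (by positivity)]; norm_num
    rw [e1, e2]
    have e3 : q ^ (1 / 4 : ℝ) ≤ (p + q) ^ (1 / 4 : ℝ) :=
      Real.rpow_le_rpow hq0.le (by linarith) (by norm_num)
    have e4 : p⁻¹ * q⁻¹ = (p + q)⁻¹ * (p⁻¹ + q⁻¹) := by
      field_simp
      ring
    have e5 : p⁻¹ ≤ ((i : ℝ) + 1)⁻¹ := by
      apply inv_anti₀ (by positivity)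
      rw [hp]; linarith
    have e6 : q⁻¹ ≤ ((n : ℝ) - i + 1)⁻¹ := by
      apply inv_anti₀ (by linarith)
      rw [hqd]; linarith
    calc p⁻¹ * (q ^ (1 / 4 : ℝ) * q⁻¹) = q ^ (1 / 4 : ℝ) * (p⁻¹ * q⁻¹) := by ring
      _ ≤ (p + q) ^ (1 / 4 : ℝ) * (p⁻¹ * q⁻¹) := mul_le_mul_of_nonneg_right e3 (by positivity)
      _ = (p + q) ^ (1 / 4 : ℝ) * (p + q)⁻¹ * (p⁻¹ + q⁻¹) := by rw [e4]; ring
      _ ≤ (p + q) ^ (1 / 4 : ℝ) * (p + q)⁻¹ * (((i : ℝ) + 1)⁻¹ + ((n : ℝ) - i + 1)⁻¹) :=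
          mul_le_mul_of_nonneg_left (add_le_add e5 e6) (by positivity)
  refine (Finset.sum_le_sum hterm).trans ?_
  rw [← Finset.mul_sum, Finset.sum_add_distrib,
    Finset.sum_range_reflect (fun j : ℕ => ((j : ℝ) + 1)⁻¹) (n + 1)]
  have hh : ∑ i ∈ range (n + 1), ((i : ℝ) + 1)⁻¹ ≤ 1 + Real.log (n + 2) := by
    have h1 := harmonic_le_one_add_log (n + 1)
    have h2 : ((harmonic (n + 1) : ℚ) : ℝ) = ∑ i ∈ range (n + 1), ((i : ℝ) + 1)⁻¹ := by
      unfold harmonic; push_cast; rfl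
    rw [← h2]
    refine h1.trans ?_
    have h3 : Real.log ((n + 1 : ℕ) : ℝ) ≤ Real.log (n + 2) := by
      apply Real.log_le_log (by positivity)
      push_cast; linarith
    linarith
  have h0 : 0 ≤ ((n : ℝ) + 4) ^ (-(3 / 4) : ℝ) := by positivity
  nlinarith

/-- The weighted energy bound. -/
theorem weighted_energy_le : ∃ C : ℝ, 0 < C ∧ ∀ N : ℕ, 3 ≤ N →
    ∑ a ∈ Icc 1 N, ∑ c ∈ Icc 1 N, u a * u c * pairE N a c ≤
      C * ((N : ℝ) ^ 2 * Real.log N ^ (-(3 / 4) : ℝ) * (1 + Real.log (Real.log N))) := by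
  obtain ⟨C1, hC10, hC1⟩ := F_two_pow_le (z := 1 / 2) (by norm_num) (by norm_num)
  obtain ⟨C2, hC20, hC2⟩ := F_two_pow_le (z := 1 / 4) (by norm_num) (by norm_num)
  refine ⟨96 * (C1 ^ 2 * C2), by positivity, fun N hN => ?_⟩
  have hN3 : (3 : ℝ) ≤ N := by exact_mod_cast hN
  refine ((weighted_le N).trans (dyadic_le N)).trans ?_
  set n0 := Nat.log 2 N with hn0
  have hterm : ∀ i ∈ range (n0 + 1), F (1 / 2) (2 ^ (i + 1)) ^ 2 *
        ((2 : ℝ) ^ (n0 + 1 - i) * F (1 / 4) (2 ^ (n0 + 1 - i))) ≤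
      16 * (C1 ^ 2 * C2) * (4 : ℝ) ^ n0 *
        (((i : ℝ) + 2)⁻¹ * (((n0 + 2 - i : ℕ) : ℝ)) ^ (-(3 / 4) : ℝ)) := by
    intro i hi
    rw [Finset.mem_range, Nat.lt_succ_iff] at hi
    have h1 := hC1 (i + 1)
    have h2 := hC2 (n0 + 1 - i)
    have h3 : 0 ≤ F (1 / 2) (2 ^ (i + 1)) := F_nonneg (by norm_num) _
    have h4 : F (1 / 2) (2 ^ (i + 1)) ^ 2 ≤ C1 ^ 2 * (4 ^ (i + 1) * ((i : ℝ) + 2)⁻¹) := by
      calc F (1 / 2) (2 ^ (i + 1)) ^ 2 ≤
            (C1 * (2 ^ (i + 1) * (((i + 1 : ℕ) : ℝ) + 1) ^ ((1 / 2 : ℝ) - 1))) ^ 2 :=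
            pow_le_pow_left₀ h3 h1 2
        _ = C1 ^ 2 * (4 ^ (i + 1) * ((i : ℝ) + 2)⁻¹) := by
            have e1 : (((i + 1 : ℕ) : ℝ) + 1) = (i : ℝ) + 2 := by push_cast; ring
            rw [e1, mul_pow, mul_pow, ← Real.rpow_natCast (((i : ℝ) + 2) ^ ((1 / 2 : ℝ) - 1)) 2,
              ← Real.rpow_mul (by positivity), ← pow_mul, mul_comm (i + 1) 2, pow_mul]
            norm_num
            exact Or.inl (Real.rpow_neg_one _)
    have h5 : ((n0 + 1 - i : ℕ) : ℝ) + 1 = ((n0 + 2 - i : ℕ) : ℝ) := by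
      rw [show n0 + 2 - i = (n0 + 1 - i) + 1 by omega]; push_cast; ring
    rw [h5, show ((1 / 4 : ℝ) - 1) = -(3 / 4) by norm_num] at h2
    have h6 : (0 : ℝ) ≤ F (1 / 4) (2 ^ (n0 + 1 - i)) := F_nonneg (by norm_num) _
    set R : ℝ := (((n0 + 2 - i : ℕ) : ℝ)) ^ (-(3 / 4) : ℝ) with hR
    have hR0 : 0 ≤ R := by positivity
    have h7 : (2 : ℝ) ^ (n0 + 1 - i) * F (1 / 4) (2 ^ (n0 + 1 - i)) ≤
        C2 * (4 ^ (n0 + 1 - i) * R) := by
      calc (2 : ℝ) ^ (n0 + 1 - i) * F (1 / 4) (2 ^ (n0 + 1 - i)) ≤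
            (2 : ℝ) ^ (n0 + 1 - i) * (C2 * (2 ^ (n0 + 1 - i) * R)) :=
            mul_le_mul_of_nonneg_left h2 (by positivity)
        _ = C2 * (4 ^ (n0 + 1 - i) * R) := by
            rw [show (4 : ℝ) = 2 * 2 by norm_num, mul_pow]; ring
    calc F (1 / 2) (2 ^ (i + 1)) ^ 2 * ((2 : ℝ) ^ (n0 + 1 - i) * F (1 / 4) (2 ^ (n0 + 1 - i)))
        ≤ C1 ^ 2 * (4 ^ (i + 1) * ((i : ℝ) + 2)⁻¹) * (C2 * (4 ^ (n0 + 1 - i) * R)) :=
          mul_le_mul h4 h7 (by positivity) (by positivity)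
      _ = 16 * (C1 ^ 2 * C2) * (4 : ℝ) ^ n0 * (((i : ℝ) + 2)⁻¹ * R) := by
          have e2 : (4 : ℝ) ^ (i + 1) * 4 ^ (n0 + 1 - i) = 16 * 4 ^ n0 := by
            rw [← pow_add, show i + 1 + (n0 + 1 - i) = n0 + 2 by omega, pow_add]
            norm_num; ring
          calc _ = C1 ^ 2 * C2 * ((4 : ℝ) ^ (i + 1) * 4 ^ (n0 + 1 - i)) * (((i : ℝ) + 2)⁻¹ * R) := by
                ring
            _ = _ := by rw [e2]; ring
  refine (Finset.sum_le_sum hterm).trans ?_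
  rw [← Finset.mul_sum]
  have hconv := convolution_sum_le n0
  have hlog0 : 1 ≤ Real.log N := by
    rw [Real.le_log_iff_exp_le (by linarith)]
    have := Real.exp_one_lt_d9
    linarith
  have h4N : (4 : ℝ) ^ n0 ≤ (N : ℝ) ^ 2 := by
    have h1 : 2 ^ n0 ≤ N := Nat.pow_log_le_self 2 (by omega)
    have h2 : ((2 : ℝ) ^ n0) ≤ N := by exact_mod_cast h1
    calc (4 : ℝ) ^ n0 = ((2 : ℝ) ^ n0) ^ 2 := by
          rw [← pow_mul, mul_comm, pow_mul]; norm_num
      _ ≤ (N : ℝ) ^ 2 := pow_le_pow_left₀ (by positivity) h2 2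
  have hup : Real.log N ≤ (n0 : ℝ) + 4 := by
    have h1 : N < 2 ^ (n0 + 1) := Nat.lt_pow_succ_log_self (by norm_num) N
    have h2 : (N : ℝ) ≤ 2 ^ (n0 + 1) := by exact_mod_cast h1.le
    have h3 : Real.log N ≤ Real.log (2 ^ (n0 + 1)) := Real.log_le_log (by linarith) h2
    rw [Real.log_pow] at h3
    have h4 := Real.log_two_lt_d9
    push_cast at h3
    have h5 : (0 : ℝ) ≤ n0 := by positivity
    nlinarith
  have hdown : (n0 : ℝ) + 2 ≤ 4 * Real.log N := by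
    have h1 : 2 ^ n0 ≤ N := Nat.pow_log_le_self 2 (by omega)
    have h2 : ((2 : ℝ) ^ n0) ≤ N := by exact_mod_cast h1
    have h3 : Real.log (2 ^ n0) ≤ Real.log N := Real.log_le_log (by positivity) h2
    rw [Real.log_pow] at h3
    have h4 := Real.log_two_gt_d9
    have h5 : (0 : ℝ) ≤ n0 := by positivity
    nlinarith
  have hr : ((n0 : ℝ) + 4) ^ (-(3 / 4) : ℝ) ≤ Real.log N ^ (-(3 / 4) : ℝ) :=
    Real.rpow_le_rpow_of_nonpos (by linarith) hup (by norm_num)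
  have hll : 0 ≤ Real.log (Real.log N) := Real.log_nonneg hlog0
  have hlg : 1 + Real.log (n0 + 2) ≤ 3 * (1 + Real.log (Real.log N)) := by
    have h1 : Real.log (n0 + 2) ≤ Real.log (4 * Real.log N) :=
      Real.log_le_log (by positivity) hdown
    rw [Real.log_mul (by norm_num) (by linarith)] at h1
    have h2 : Real.log 4 ≤ 2 := by
      have : Real.log 4 = 2 * Real.log 2 := by
        rw [show (4 : ℝ) = 2 ^ 2 by norm_num, Real.log_pow]; norm_num
      have := Real.log_two_lt_d9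
      linarith
    linarith
  have hpos1 : 0 ≤ Real.log N ^ (-(3 / 4) : ℝ) := by positivity
  calc 16 * (C1 ^ 2 * C2) * (4 : ℝ) ^ n0 *
        ∑ i ∈ range (n0 + 1), (((i : ℝ) + 2)⁻¹ * (((n0 + 2 - i : ℕ) : ℝ)) ^ (-(3 / 4) : ℝ))
      ≤ 16 * (C1 ^ 2 * C2) * (N : ℝ) ^ 2 *
        (2 * Real.log N ^ (-(3 / 4) : ℝ) * (3 * (1 + Real.log (Real.log N)))) := by
        apply mul_le_mul
        · exact mul_le_mul_of_nonneg_left h4N (by positivity)
        · refine hconv.trans ?_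
          apply mul_le_mul _ hlg _ (by positivity)
          · exact mul_le_mul_of_nonneg_left hr (by norm_num)
          · have : 0 ≤ Real.log ((n0 : ℝ) + 2) := Real.log_nonneg (by
              have : (0 : ℝ) ≤ n0 := by positivity
              linarith)
            linarith
        · exact Finset.sum_nonneg fun i _ => by positivity
        · positivity
    _ = 96 * (C1 ^ 2 * C2) *
        ((N : ℝ) ^ 2 * Real.log N ^ (-(3 / 4) : ℝ) * (1 + Real.log (Real.log N))) := by ring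

end Pool.Agent.J6H76.MulEnergy
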