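import Mathlib
import Pool.Agent.J6H76.MulEnergy.Upper

set_option autoImplicit false

/-!
A lower bound for the number of `n ≤ N` with few prime factors.
-/

namespace Pool.Agent.J6H76.MulEnergy

open Finset ArithmeticFunction

/-- the primes up to `y` -/
def Pr (y : ℕ) : Finset ℕ := (Icc 1 y).filter Nat.Prime

/-- products of `j` primes up to `y` -/
def MM (y : ℕ) : ℕ → Finset ℕ
  | 0 => {1}
  | j + 1 => (Pr y ×ˢ MM y j).image (fun p => p.1 * p.2)

lemma MM_prop (y : ℕ) : ∀ (j : ℕ), ∀ m ∈ MM y j, m ≠ 0 ∧ Om m = j ∧ m ≤ y ^ j := by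
  intro j
  induction j with
  | zero =>
    intro m hm
    simp only [MM, Finset.mem_singleton] at hm
    subst hm
    simp [Om]
  | succ j ih =>
    intro m hm
    simp only [MM, Finset.mem_image, Finset.mem_product] at hm
    obtain ⟨⟨p, n⟩, ⟨hp, hn⟩, rfl⟩ := hm
    dsimp only at hp hn ⊢
    rw [Pr, Finset.mem_filter, Finset.mem_Icc] at hp
    obtain ⟨h1, h2, h3⟩ := ih n hn
    refine ⟨Nat.mul_ne_zero hp.2.ne_zero h1, ?_, ?_⟩
    · rw [Om_mul hp.2.ne_zero h1, h2]
      have : Om p = 1 := ArithmeticFunction.cardFactors_apply_prime hp.2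
      rw [this, add_comm]
    · rw [pow_succ, mul_comm]
      exact Nat.mul_le_mul h3 hp.1.2

/-- reciprocal sums -/
noncomputable def R (y j : ℕ) : ℝ := ∑ m ∈ MM y j, (1 : ℝ) / m

noncomputable def S (y : ℕ) : ℝ := ∑ p ∈ Pr y, (1 : ℝ) / p

lemma S_nonneg (y : ℕ) : 0 ≤ S y := Finset.sum_nonneg fun _ _ => by positivity

lemma R_nonneg (y j : ℕ) : 0 ≤ R y j := Finset.sum_nonneg fun _ _ => by positivity

lemma S_mul_R_le (y j : ℕ) : S y * R y j ≤ (j + 1) * R y (j + 1) := by
  unfold S R
  rw [Finset.sum_mul_sum, ← Finset.sum_product']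
  have hmaps : ∀ p ∈ Pr y ×ˢ MM y j, p.1 * p.2 ∈ MM y (j + 1) := by
    intro p hp
    simp only [MM, Finset.mem_image]
    exact ⟨p, hp, rfl⟩
  rw [← Finset.sum_fiberwise_of_maps_to hmaps, Finset.mul_sum]
  refine Finset.sum_le_sum fun n hn => ?_
  obtain ⟨hn0, hn1, -⟩ := MM_prop y (j + 1) n hn
  have h1 : ∀ p ∈ (Pr y ×ˢ MM y j).filter (fun p => p.1 * p.2 = n),
      (1 : ℝ) / p.1 * (1 / p.2) = 1 / n := by
    intro p hp
    rw [Finset.mem_filter] at hp
    rw [← hp.2]; push_cast; rw [one_div_mul_one_div]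
  rw [Finset.sum_congr rfl h1, Finset.sum_const, nsmul_eq_mul]
  have h2 : ((Pr y ×ˢ MM y j).filter (fun p => p.1 * p.2 = n)).card ≤ j + 1 := by
    calc ((Pr y ×ˢ MM y j).filter (fun p => p.1 * p.2 = n)).card
        ≤ (n.primeFactors).card := by
          apply Finset.card_le_card_of_injOn (fun p => p.1)
          · intro p hp
            simp only [Finset.coe_filter, Set.mem_ofPred_eq, Finset.mem_product, Pr,
              Finset.mem_filter] at hp
            simp only [Finset.mem_coe, Nat.mem_primeFactors]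
            exact ⟨hp.1.1.2, ⟨p.2, hp.2.symm⟩, hn0⟩
          · rintro ⟨p, m⟩ hp ⟨p', m'⟩ hp' h
            simp only [Finset.coe_filter, Set.mem_ofPred_eq, Finset.mem_product, Pr,
              Finset.mem_filter] at hp hp'
            dsimp only at h
            subst h
            have : p * m = p * m' := by rw [hp.2, hp'.2]
            have := Nat.eq_of_mul_eq_mul_left hp.1.1.2.pos this
            rw [this]
      _ ≤ Om n := by
          rw [Om, ArithmeticFunction.cardFactors_apply]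
          exact List.toFinset_card_le _
      _ = j + 1 := hn1
  apply mul_le_mul_of_nonneg_right _ (by positivity)
  exact_mod_cast h2

lemma S_pow_le (y j : ℕ) : S y ^ j ≤ j.factorial * R y j := by
  induction j with
  | zero => simp [R, MM]
  | succ j ih =>
    calc S y ^ (j + 1) = S y ^ j * S y := pow_succ _ _
      _ ≤ (j.factorial * R y j) * S y := mul_le_mul_of_nonneg_right ih (S_nonneg y)
      _ = j.factorial * (S y * R y j) := by ring
      _ ≤ j.factorial * ((j + 1) * R y (j + 1)) :=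
          mul_le_mul_of_nonneg_left (S_mul_R_le y j) (by positivity)
      _ = _ := by rw [Nat.factorial_succ]; push_cast; ring

lemma log_factorial_le (j : ℕ) (hj : 1 ≤ j) :
    Real.log (j.factorial) ≤ (j + 1) * Real.log j - j + 1 := by
  induction j, hj using Nat.le_induction with
  | base => simp
  | succ j hj ih =>
    have hj0 : (0 : ℝ) < j := by exact_mod_cast hj
    rw [Nat.factorial_succ, Nat.cast_mul, Real.log_mul (by positivity) (by positivity)]
    push_cast
    have h1 : 1 ≤ ((j : ℝ) + 1) * (Real.log (j + 1) - Real.log j) := by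
      rw [← Real.log_div (by positivity) (by positivity)]
      have h2 := Real.one_sub_inv_le_log_of_pos (show 0 < ((j : ℝ) + 1) / j by positivity)
      have h3 : 1 - (((j : ℝ) + 1) / j)⁻¹ = 1 / (j + 1) := by
        field_simp
        ring
      rw [h3] at h2
      calc (1 : ℝ) = ((j : ℝ) + 1) * (1 / (j + 1)) := by field_simp
        _ ≤ _ := mul_le_mul_of_nonneg_left h2 (by positivity)
    nlinarith

/-- many primes in `(Q, n]` -/
lemma primes_count {n Q : ℕ} (hn : 160 ^ 4 ≤ n) (hQ : 20 * Q ≤ n) :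
    (n : ℝ) / 2 ≤ ((Ioc Q n).filter Nat.Prime).card * Real.log n := by
  have hn' : (160 : ℝ) ^ 4 ≤ n := by exact_mod_cast hn
  have hn0 : (0 : ℝ) < n := lt_of_lt_of_le (by norm_num) hn'
  obtain ⟨r, hr⟩ : ∃ r : ℝ, r = (n : ℝ) ^ (1 / 4 : ℝ) := ⟨_, rfl⟩
  have hr0 : 0 ≤ r := by rw [hr]; positivity
  have hr4 : r ^ 4 = n := by
    rw [hr, ← Real.rpow_natCast, ← Real.rpow_mul hn0.le]; norm_num
  have hr160 : 160 ≤ r := by
    rw [← hr4] at hn'
    exact le_of_pow_le_pow_left₀ (by norm_num) hr0 hn'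
  have hsqrt : √(n : ℝ) = r ^ 2 := by
    rw [← hr4, show r ^ 4 = (r ^ 2) ^ 2 by ring, Real.sqrt_sq (by positivity)]
  have hlog : Real.log n ≤ 4 * r := by
    have := Real.log_le_rpow_div hn0.le (ε := 1 / 4) (by norm_num)
    rw [← hr] at this
    linarith
  have hlog0 : 0 ≤ Real.log n := Real.log_nonneg (by linarith)
  have hlog1 : Real.log (n + 1) ≤ 1 + 4 * r := by
    have h1 : Real.log (n + 1) ≤ Real.log (2 * n) :=
      Real.log_le_log (by positivity) (by linarith)
    rw [Real.log_mul (by norm_num) (by positivity)] at h1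
    have := Real.log_two_lt_d9
    linarith
  have h1 := Chebyshev.theta_ge n
  have h2 := Chebyshev.theta_le_log4_mul_x (x := (Q : ℝ)) (by positivity)
  have hQ' : 20 * (Q : ℝ) ≤ n := by exact_mod_cast hQ
  have hl4 : Real.log 4 ≤ 1.4 := by
    have : Real.log 4 = 2 * Real.log 2 := by
      rw [show (4 : ℝ) = 2 ^ 2 by norm_num, Real.log_pow]; norm_num
    have := Real.log_two_lt_d9
    linarith
  have hQ0 : (0 : ℝ) ≤ Q := by positivity
  have h3 : Chebyshev.theta Q ≤ 0.07 * n := by nlinarith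
  have h4 : 0.6 * (n : ℝ) ≤ Chebyshev.theta n := by
    refine le_trans ?_ h1
    rw [hsqrt]
    have h5 := Real.log_two_gt_d9
    have h6 : 2 * r ^ 2 * Real.log n ≤ 8 * r ^ 3 := by
      calc 2 * r ^ 2 * Real.log n ≤ 2 * r ^ 2 * (4 * r) :=
            mul_le_mul_of_nonneg_left hlog (by positivity)
        _ = 8 * r ^ 3 := by ring
    have h7 : (n : ℝ) * Real.log 2 ≥ n * 0.69 := by
      apply mul_le_mul_of_nonneg_left _ hn0.le
      linarith
    have h8 : 8 * r ^ 3 ≤ 0.05 * (n : ℝ) := by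
      rw [← hr4]
      have : 0 ≤ r ^ 3 * (r - 160) := by
        apply mul_nonneg (by positivity); linarith
      nlinarith
    have h9 : 1 + 4 * r ≤ 0.01 * (n : ℝ) := by
      rw [← hr4]
      have e1 : (160 : ℝ) ^ 3 ≤ r ^ 3 := pow_le_pow_left₀ (by norm_num) hr160 3
      have e2 : (160 : ℝ) ^ 3 * r ≤ r ^ 3 * r := mul_le_mul_of_nonneg_right e1 hr0
      nlinarith
    linarith
  have h5 : Chebyshev.theta n - Chebyshev.theta Q ≤
      ((Ioc Q n).filter Nat.Prime).card * Real.log n := by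
    have hQn : Q ≤ n := by omega
    have e1 : Chebyshev.theta n = Chebyshev.theta Q +
        ∑ p ∈ (Ioc Q n).filter Nat.Prime, Real.log p := by
      unfold Chebyshev.theta
      rw [Nat.floor_natCast, Nat.floor_natCast, Finset.sum_filter, Finset.sum_filter,
        Finset.sum_filter, Finset.sum_Ioc_consecutive _ (Nat.zero_le _) hQn]
    rw [e1, add_sub_cancel_left, ← nsmul_eq_mul, ← Finset.sum_const]
    refine Finset.sum_le_sum fun p hp => ?_
    rw [Finset.mem_filter, Finset.mem_Ioc] at hp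
    exact Real.log_le_log (by exact_mod_cast hp.2.pos) (by exact_mod_cast hp.1.2)
  linarith

/-- the set of `n ≤ N` with at most `k` prime factors -/
noncomputable def AA (N k : ℕ) : Finset ℕ := (Icc 1 N).filter (fun n => Om n ≤ k)

lemma card_AA_ge {N y j : ℕ} (hX : 1000 ≤ y ^ j) (hN : (y ^ j) ^ 4 ≤ N) :
    (N : ℝ) / (4 * Real.log N) * R y j ≤ (AA N (j + 1)).card := by
  set X := y ^ j with hXd
  have hX2 : X ^ 4 = X * X ^ 3 := by ring
  have hX3 : 1000 ^ 3 ≤ X ^ 3 := Nat.pow_le_pow_left hX 3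
  have hX4 : 1000 ^ 4 ≤ X ^ 4 := Nat.pow_le_pow_left hX 4
  have hN1 : (1 : ℝ) < N := by
    have : 1 < N := by omega
    exact_mod_cast this
  have hlogN : 0 < Real.log N := Real.log_pos hN1
  -- the disjoint pieces
  let T : Finset (Σ _ : ℕ, ℕ) := (MM y j).sigma (fun m => (Ioc X (N / m)).filter Nat.Prime)
  have hTcard : T.card ≤ (AA N (j + 1)).card := by
    apply Finset.card_le_card_of_injOn (fun q => q.1 * q.2)
    · rintro ⟨m, p⟩ hq
      simp only [T, Finset.coe_sigma, Set.mem_sigma_iff, Finset.mem_coe, Finset.mem_filter,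
        Finset.mem_Ioc] at hq
      obtain ⟨hm, ⟨h1, h2⟩, h3⟩ := hq
      obtain ⟨hm0, hm1, hm2⟩ := MM_prop y j m hm
      simp only [AA, Finset.coe_filter, Set.mem_ofPred_eq, Finset.mem_Icc]
      refine ⟨⟨Nat.mul_pos (Nat.pos_of_ne_zero hm0) h3.pos, ?_⟩, ?_⟩
      · rw [mul_comm]
        exact (Nat.le_div_iff_mul_le (Nat.pos_of_ne_zero hm0)).1 h2
      · rw [Om_mul hm0 h3.ne_zero, hm1]
        have : Om p = 1 := ArithmeticFunction.cardFactors_apply_prime h3
        omega
    · rintro ⟨m, p⟩ hq ⟨m', p'⟩ hq' h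
      simp only [T, Finset.coe_sigma, Set.mem_sigma_iff, Finset.mem_coe, Finset.mem_filter,
        Finset.mem_Ioc] at hq hq'
      obtain ⟨hm, ⟨h1, h2⟩, h3⟩ := hq
      obtain ⟨hm', ⟨h1', h2'⟩, h3'⟩ := hq'
      obtain ⟨hm0, hm1, hm2⟩ := MM_prop y j m hm
      obtain ⟨hm0', hm1', hm2'⟩ := MM_prop y j m' hm'
      dsimp only at h
      have hpp : p = p' := by
        have h4 : p ∣ m' * p' := ⟨m, by rw [← h]; ring⟩
        rcases (Nat.Prime.dvd_mul h3).1 h4 with h5 | h5
        · have := Nat.le_of_dvd (Nat.pos_of_ne_zero hm0') h5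
          omega
        · exact (Nat.prime_dvd_prime_iff_eq h3 h3').1 h5
      subst hpp
      have := Nat.eq_of_mul_eq_mul_right h3.pos h
      rw [this]
  have hTsum : (T.card : ℝ) = ∑ m ∈ MM y j, (((Ioc X (N / m)).filter Nat.Prime).card : ℝ) := by
    simp only [T, Finset.card_sigma]
    push_cast
    rfl
  refine le_trans ?_ (show (T.card : ℝ) ≤ (AA N (j + 1)).card by exact_mod_cast hTcard)
  rw [hTsum, R, Finset.mul_sum]
  refine Finset.sum_le_sum fun m hm => ?_
  obtain ⟨hm0, hm1, hm2⟩ := MM_prop y j m hm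
  rw [← hXd] at hm2
  have hmpos : 0 < m := Nat.pos_of_ne_zero hm0
  have hmR : (0 : ℝ) < m := by exact_mod_cast hmpos
  have h1 : X ^ 3 ≤ N / m := by
    rw [Nat.le_div_iff_mul_le hmpos]
    calc X ^ 3 * m ≤ X ^ 3 * X := Nat.mul_le_mul_left _ hm2
      _ = X ^ 4 := by ring
      _ ≤ N := hN
  have h2 : 160 ^ 4 ≤ N / m := le_trans (by norm_num; omega) h1
  have h3 : 20 * X ≤ N / m := by
    refine le_trans ?_ h1
    calc 20 * X ≤ (X * X) * X := Nat.mul_le_mul_right _ (by nlinarith)
      _ = X ^ 3 := by ring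
  have h4 := primes_count h2 h3
  have h5 : Real.log ((N / m : ℕ) : ℝ) ≤ Real.log N := by
    apply Real.log_le_log
    · have : 0 < N / m := by omega
      exact_mod_cast this
    · exact_mod_cast Nat.div_le_self N m
  have h6 : (N : ℝ) / m ≤ 2 * ((N / m : ℕ) : ℝ) := by
    have h7 : (N : ℝ) / m < ((N / m : ℕ) : ℝ) + 1 := by
      rw [div_lt_iff₀ hmR]
      have : N < (N / m + 1) * m := by
        have e1 := Nat.div_add_mod N m
        have e2 := Nat.mod_lt N hmpos
        nlinarith
      exact_mod_cast this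
    have h8 : (1 : ℝ) ≤ ((N / m : ℕ) : ℝ) := by
      have : 1 ≤ N / m := by omega
      exact_mod_cast this
    linarith
  have h7 : (N : ℝ) / m / 4 ≤ (((Ioc X (N / m)).filter Nat.Prime).card : ℝ) * Real.log N := by
    have h8 : (((Ioc X (N / m)).filter Nat.Prime).card : ℝ) * Real.log ((N / m : ℕ) : ℝ) ≤
        (((Ioc X (N / m)).filter Nat.Prime).card : ℝ) * Real.log N :=
      mul_le_mul_of_nonneg_left h5 (by positivity)
    linarith
  calc (N : ℝ) / (4 * Real.log N) * (1 / m) = ((N : ℝ) / m / 4) / Real.log N := by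
        field_simp
    _ ≤ ((((Ioc X (N / m)).filter Nat.Prime).card : ℝ) * Real.log N) / Real.log N :=
        div_le_div_of_nonneg_right h7 hlogN.le
    _ = (((Ioc X (N / m)).filter Nat.Prime).card : ℝ) := by
        rw [mul_div_assoc, div_self hlogN.ne', mul_one]

end Pool.Agent.J6H76.MulEnergy
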