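import Mathlib
import Pool.Agent.J6H76.MulEnergy.Lower

set_option autoImplicit false

/-!
Asymptotic form of the lower bound for the number of `n ≤ N` with at most
`(log log N) / 2` prime factors.
-/

namespace Pool.Agent.J6H76.MulEnergy

open Finset ArithmeticFunction Filter

lemma eventually_L {C δ : ℝ} (hδ : 0 < δ) : ∀ᶠ L : ℝ in atTop,
    Real.log (4 * L) + C ≤ δ * L ∧ 5 + Real.log L ≤ δ * L ∧ Real.log 4 ≤ δ * L ∧ 32 ≤ L := by
  have h1 : ∀ᶠ L : ℝ in atTop, ‖Real.log L‖ ≤ δ / 2 * ‖L‖ :=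
    Real.isLittleO_log_id_atTop.bound (by positivity)
  filter_upwards [h1, eventually_ge_atTop 32, eventually_ge_atTop ((|C| + 10) * 2 / δ)] with L h1 h2 h3
  have hL : 0 < L := by linarith
  rw [Real.norm_eq_abs, Real.norm_eq_abs, abs_of_pos hL] at h1
  have h4 : Real.log L ≤ δ / 2 * L := (le_abs_self _).trans h1
  have h5 : |C| + 10 ≤ δ / 2 * L := by
    rw [div_le_iff₀ hδ] at h3
    linarith
  have h6 : Real.log 4 ≤ 2 := by
    have : Real.log 4 = 2 * Real.log 2 := by
      rw [show (4 : ℝ) = 2 ^ 2 by norm_num, Real.log_pow]; norm_num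
    have := Real.log_two_lt_d9
    linarith
  have h7 := le_abs_self C
  have h8 := abs_nonneg C
  refine ⟨?_, ?_, ?_, h2⟩
  · rw [Real.log_mul (by norm_num) hL.ne']
    linarith
  · linarith
  · nlinarith

/-- The core estimate, for one `N`. -/
lemma AA_lower_aux {C δ : ℝ} (hδ0 : 0 < δ) (hδ1 : δ ≤ 1 / 2)
    (hC : ∀ N ≥ 3, |∑ p ∈ (Icc 1 N).filter Nat.Prime, (1 : ℝ) / p - Real.log (Real.log N)| ≤ C)
    {N : ℕ} (hN : 3 ≤ N) {L : ℝ} (hL : L = Real.log (Real.log N))
    (h1 : Real.log (4 * L) + C ≤ δ * L) (h2 : 5 + Real.log L ≤ δ * L)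
    (h3 : Real.log 4 ≤ δ * L) (h4 : 32 ≤ L) :
    (N : ℝ) * Real.exp (-(L * ((1 - Real.log 2) / 2)) - 3 * δ * L) ≤ (AA N ⌊L / 2⌋₊).card := by
  have hN3 : (3 : ℝ) ≤ N := by exact_mod_cast hN
  have hN0 : (0 : ℝ) < N := by linarith
  have hLpos : 0 < L := by linarith
  have hlog1 : 1 ≤ Real.log N := by
    rw [Real.le_log_iff_exp_le hN0]
    have := Real.exp_one_lt_d9
    linarith
  have hlogpos : 0 < Real.log N := by linarith
  have hexpL : Real.exp L = Real.log N := by rw [hL, Real.exp_log hlogpos]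
  -- k and j
  obtain ⟨j, hj⟩ : ∃ j : ℕ, ⌊L / 2⌋₊ = j + 1 := by
    have : 1 ≤ ⌊L / 2⌋₊ := by
      rw [Nat.one_le_floor_iff]; linarith
    exact ⟨⌊L / 2⌋₊ - 1, by omega⟩
  have hk1 : ((j : ℝ) + 1) ≤ L / 2 := by
    have : ((⌊L / 2⌋₊ : ℕ) : ℝ) ≤ L / 2 := Nat.floor_le (by linarith)
    rw [hj] at this; push_cast at this; exact this
  have hk2 : L / 2 < (j : ℝ) + 2 := by
    have := Nat.lt_floor_add_one (L / 2)
    rw [hj] at this; push_cast at this; linarith
  have hj1 : 1 ≤ j := by
    have : (13 : ℝ) < j := by linarith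
    have : 13 < j := by exact_mod_cast this
    omega
  have hjR : (1 : ℝ) ≤ j := by exact_mod_cast hj1
  have hj0 : (0 : ℝ) < j := by linarith
  rw [hj]
  -- y
  set E : ℝ := Real.log N / (4 * j) with hE
  set y : ℕ := ⌊Real.exp E⌋₊ with hy
  have hE1 : Real.log N / (2 * L) ≤ E := by
    rw [hE]
    apply div_le_div_of_nonneg_left hlogpos.le (by positivity)
    linarith
  have hE2 : 8 ≤ Real.log N / (2 * L) := by
    rw [le_div_iff₀ (by positivity), ← hexpL]
    have := Real.quadratic_le_exp_of_nonneg hLpos.le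
    nlinarith
  have hE8 : 8 ≤ E := hE2.trans hE1
  have hexp8 : 2000 ≤ Real.exp E := by
    have e1 : Real.exp 8 ≤ Real.exp E := Real.exp_le_exp.2 hE8
    have e2 : Real.exp 8 = Real.exp 1 ^ 8 := by rw [← Real.exp_nat_mul]; norm_num
    have e3 := Real.exp_one_gt_d9
    have e4 : (2.6 : ℝ) ^ 8 ≤ Real.exp 1 ^ 8 := pow_le_pow_left₀ (by norm_num) (by linarith) 8
    have e5 : (2000 : ℝ) ≤ 2.6 ^ 8 := by norm_num
    linarith
  have hy1 : (y : ℝ) ≤ Real.exp E := Nat.floor_le (by positivity)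
  have hy2 : Real.exp E / 2 ≤ y := by
    have := Nat.lt_floor_add_one (Real.exp E)
    rw [← hy] at this
    linarith
  have hy1000R : (1000 : ℝ) ≤ y := by linarith
  have hy1000 : 1000 ≤ y := by exact_mod_cast hy1000R
  have hX : 1000 ≤ y ^ j := by
    calc 1000 ≤ y := hy1000
      _ = y ^ 1 := (pow_one y).symm
      _ ≤ y ^ j := Nat.pow_le_pow_right (by omega) hj1
  have hXN : (y ^ j) ^ 4 ≤ N := by
    have e1 : ((y : ℝ) ^ j) ^ 4 ≤ N := by
      calc ((y : ℝ) ^ j) ^ 4 ≤ (Real.exp E ^ j) ^ 4 := by gcongr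
        _ = Real.exp (Real.log N) := by
            rw [← pow_mul, ← Real.exp_nat_mul, hE]
            congr 1
            push_cast
            field_simp
        _ = N := Real.exp_log hN0
    exact_mod_cast e1
  have hmain := card_AA_ge hX hXN
  refine le_trans ?_ hmain
  -- lower bound for S
  have hlogy : Real.log N / (4 * L) ≤ Real.log y := by
    have e1 : Real.log (Real.exp E / 2) ≤ Real.log y :=
      Real.log_le_log (by positivity) hy2
    rw [Real.log_div (by positivity) (by norm_num), Real.log_exp] at e1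
    have e2 : Real.log N / (4 * L) = Real.log N / (2 * L) / 2 := by field_simp; ring
    have e3 := Real.log_two_lt_d9
    rw [e2]; linarith
  have hlly : L - Real.log (4 * L) ≤ Real.log (Real.log y) := by
    have e1 : Real.log (Real.log N / (4 * L)) ≤ Real.log (Real.log y) :=
      Real.log_le_log (by positivity) hlogy
    rwa [Real.log_div (by positivity) (by positivity), ← hL] at e1
  have hS : (1 - δ) * L ≤ S y := by
    have e1 := (abs_le.1 (hC y (by omega))).1
    have e2 : S y = ∑ p ∈ (Icc 1 y).filter Nat.Prime, (1 : ℝ) / p := rfl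
    rw [e2]; linarith
  have hSpos : 0 < (1 - δ) * L := mul_pos (by linarith) hLpos
  -- lower bound for R
  have hR : ((1 - δ) * L) ^ j / j.factorial ≤ R y j := by
    rw [div_le_iff₀ (by positivity)]
    calc ((1 - δ) * L) ^ j ≤ S y ^ j := pow_le_pow_left₀ hSpos.le hS j
      _ ≤ j.factorial * R y j := S_pow_le y j
      _ = _ := mul_comm _ _
  have hlogR : L * ((1 + Real.log 2) / 2) - 2 * δ * L ≤
      Real.log (((1 - δ) * L) ^ j / j.factorial) := by
    rw [Real.log_div (by positivity) (by positivity), Real.log_pow,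
      Real.log_mul (by linarith) (by positivity)]
    have e1 := log_factorial_le j hj1
    have e2 : Real.log j ≤ Real.log L - Real.log 2 := by
      rw [← Real.log_div (by positivity) (by norm_num)]
      exact Real.log_le_log hj0 (by linarith)
    have e3 : -(2 * δ) ≤ Real.log (1 - δ) := by
      have h := Real.one_sub_inv_le_log_of_pos (show 0 < 1 - δ by linarith)
      refine le_trans ?_ h
      have : (1 - δ)⁻¹ ≤ 1 + 2 * δ := by
        rw [inv_eq_one_div, div_le_iff₀ (by linarith)]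
        nlinarith
      linarith
    have e4 := Real.log_two_gt_d9
    have e5 := Real.log_two_lt_d9
    have e6 : ((j : ℝ) + 1) * Real.log j ≤ ((j : ℝ) + 1) * (Real.log L - Real.log 2) :=
      mul_le_mul_of_nonneg_left e2 (by positivity)
    have e7 : (j : ℝ) * (-(2 * δ)) ≤ j * Real.log (1 - δ) :=
      mul_le_mul_of_nonneg_left e3 hj0.le
    -- j (1 + log 2 - 2δ) - 1 - log L + log 2
    have e8 : (L / 2 - 2) * (1 + Real.log 2 - 2 * δ) ≤ j * (1 + Real.log 2 - 2 * δ) :=
      mul_le_mul_of_nonneg_right (by linarith) (by linarith)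
    nlinarith
  have hRexp : Real.exp (L * ((1 + Real.log 2) / 2) - 2 * δ * L) ≤ R y j := by
    refine le_trans ?_ hR
    rw [← Real.le_log_iff_exp_le (by positivity)]
    exact hlogR
  calc (N : ℝ) * Real.exp (-(L * ((1 - Real.log 2) / 2)) - 3 * δ * L)
      ≤ N * (Real.exp (-Real.log 4 - L) *
          Real.exp (L * ((1 + Real.log 2) / 2) - 2 * δ * L)) := by
        apply mul_le_mul_of_nonneg_left _ hN0.le
        rw [← Real.exp_add]
        apply Real.exp_le_exp.2
        nlinarith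
    _ = (N : ℝ) / (4 * Real.log N) *
          Real.exp (L * ((1 + Real.log 2) / 2) - 2 * δ * L) := by
        have e1 : Real.exp (-Real.log 4 - L) = (4 * Real.log N)⁻¹ := by
          rw [sub_eq_add_neg, Real.exp_add, Real.exp_neg, Real.exp_neg,
            Real.exp_log (by norm_num), hexpL, mul_inv]
        rw [e1]
        ring
    _ ≤ (N : ℝ) / (4 * Real.log N) * R y j :=
        mul_le_mul_of_nonneg_left hRexp (by positivity)

/-- The number of `n ≤ N` with `Ω(n) ≤ (log log N) / 2` is at least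
`N (log N) ^ (-(1 - log 2) / 2 - ε)` for large `N`. -/
theorem AA_lower {ε : ℝ} (hε : 0 < ε) : ∀ᶠ N : ℕ in atTop,
    (N : ℝ) * Real.log N ^ (-((1 - Real.log 2) / 2) - ε) ≤
      (AA N ⌊Real.log (Real.log N) / 2⌋₊).card := by
  obtain ⟨C, hC⟩ := Pool.Agent.Helper256.KM.mertens_inv
  set δ := min (ε / 3) (1 / 2) with hδ
  have hδ0 : 0 < δ := lt_min (by positivity) (by norm_num)
  have hδ1 : δ ≤ 1 / 2 := min_le_right _ _
  have hδ2 : 3 * δ ≤ ε := by
    have := min_le_left (ε / 3) (1 / 2 : ℝ)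
    linarith
  have htend : Tendsto (fun N : ℕ => Real.log (Real.log (N : ℝ))) atTop atTop :=
    Real.tendsto_log_atTop.comp (Real.tendsto_log_atTop.comp tendsto_natCast_atTop_atTop)
  filter_upwards [htend.eventually (eventually_L (C := C) hδ0), eventually_ge_atTop 3]
    with N hN hN3
  obtain ⟨h1, h2, h3, h4⟩ := hN
  have hkey := AA_lower_aux hδ0 hδ1 hC hN3 rfl h1 h2 h3 h4
  refine le_trans ?_ hkey
  have hN3' : (3 : ℝ) ≤ N := by exact_mod_cast hN3
  have hlog1 : 1 ≤ Real.log N := by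
    rw [Real.le_log_iff_exp_le (by linarith)]
    have := Real.exp_one_lt_d9
    linarith
  apply mul_le_mul_of_nonneg_left _ (by positivity)
  rw [Real.rpow_def_of_pos (by linarith)]
  apply Real.exp_le_exp.2
  nlinarith

end Pool.Agent.J6H76.MulEnergy
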