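import Mathlib

set_option autoImplicit false

/-!
Thinning a finite set: some subset of size `m` carries at most an `(m / |A|)²` share of any
nonnegative off-diagonal weight.
-/

namespace Pool.Agent.J6H76.MulEnergy

open Finset

/-- total off-diagonal weight -/
noncomputable def W (w : ℕ × ℕ → ℝ) (B : Finset ℕ) : ℝ := ∑ p ∈ B.offDiag, w p

lemma W_nonneg {w : ℕ × ℕ → ℝ} (hw : ∀ p, 0 ≤ w p) (B : Finset ℕ) : 0 ≤ W w B :=
  Finset.sum_nonneg fun p _ => hw p

lemma sum_W_erase (w : ℕ × ℕ → ℝ) (A : Finset ℕ) :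
    ∑ v ∈ A, W w (A.erase v) = ((A.card : ℝ) - 2) * W w A := by
  unfold W
  have h1 : ∀ v ∈ A, ∑ p ∈ (A.erase v).offDiag, w p =
      ∑ p ∈ A.offDiag, if p.1 ≠ v ∧ p.2 ≠ v then w p else 0 := by
    intro v _
    rw [← Finset.sum_filter]
    apply Finset.sum_congr _ fun _ _ => rfl
    ext ⟨x, y⟩
    simp only [Finset.mem_offDiag, Finset.mem_erase, Finset.mem_filter]
    tauto
  rw [Finset.sum_congr rfl h1, Finset.sum_comm, Finset.mul_sum]
  refine Finset.sum_congr rfl fun p hp => ?_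
  rw [Finset.mem_offDiag] at hp
  obtain ⟨h2, h3, h4⟩ := hp
  rw [← Finset.sum_filter, Finset.sum_const, nsmul_eq_mul]
  have h5 : A.filter (fun v => p.1 ≠ v ∧ p.2 ≠ v) = A \ {p.1, p.2} := by
    ext x
    simp only [Finset.mem_filter, Finset.mem_sdiff, Finset.mem_insert, Finset.mem_singleton]
    constructor
    · rintro ⟨hx, h6, h7⟩
      exact ⟨hx, by rintro (rfl | rfl) <;> simp_all⟩
    · rintro ⟨hx, h6⟩
      exact ⟨hx, fun h => h6 (Or.inl h.symm), fun h => h6 (Or.inr h.symm)⟩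
  rw [h5]
  have h6 : ({p.1, p.2} : Finset ℕ) ⊆ A := by
    intro x hx
    rw [Finset.mem_insert, Finset.mem_singleton] at hx
    rcases hx with rfl | rfl <;> assumption
  rw [Finset.card_sdiff_of_subset h6, Nat.cast_sub (Finset.card_le_card h6),
    Finset.card_pair h4]
  norm_num

lemma exists_erase {w : ℕ × ℕ → ℝ} (hw : ∀ p, 0 ≤ w p) {A : Finset ℕ} (hA : A.Nonempty) :
    ∃ v ∈ A, (A.card : ℝ) ^ 2 * W w (A.erase v) ≤ ((A.card : ℝ) - 1) ^ 2 * W w A := by
  have h1 : ∑ v ∈ A, (A.card : ℝ) * W w (A.erase v) ≤ ∑ _v ∈ A, ((A.card : ℝ) - 2) * W w A := by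
    rw [← Finset.mul_sum, sum_W_erase, Finset.sum_const, nsmul_eq_mul]
  obtain ⟨v, hv, h2⟩ := Finset.exists_le_of_sum_le hA h1
  refine ⟨v, hv, ?_⟩
  have h3 : (0 : ℝ) ≤ A.card := by positivity
  have h4 := mul_le_mul_of_nonneg_left h2 h3
  have h5 := W_nonneg hw A
  nlinarith

theorem exists_thin {w : ℕ × ℕ → ℝ} (hw : ∀ p, 0 ≤ w p) :
    ∀ (k : ℕ) (A : Finset ℕ) (m : ℕ), A.card = m + k →
      ∃ B ⊆ A, B.card = m ∧ (A.card : ℝ) ^ 2 * W w B ≤ (m : ℝ) ^ 2 * W w A := by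
  intro k
  induction k with
  | zero =>
    intro A m h
    refine ⟨A, Finset.Subset.refl _, by simpa using h, ?_⟩
    rw [h]; simp
  | succ k ih =>
    intro A m h
    have hne : A.Nonempty := by
      rw [← Finset.card_pos]; omega
    obtain ⟨v, hv, h1⟩ := exists_erase hw hne
    have hc : (A.erase v).card = m + k := by
      rw [Finset.card_erase_of_mem hv]; omega
    obtain ⟨B, hB, hBm, h2⟩ := ih (A.erase v) m hc
    refine ⟨B, hB.trans (Finset.erase_subset _ _), hBm, ?_⟩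
    have hc' : ((A.erase v).card : ℝ) = (A.card : ℝ) - 1 := by
      rw [hc, h]; push_cast; ring
    rcases Nat.eq_zero_or_pos (m + k) with h0 | h0
    · have hm : m = 0 := by omega
      have : B = ∅ := by rw [← Finset.card_eq_zero, hBm, hm]
      rw [this, hm]; simp [W]
    · have h3 : (0 : ℝ) < (A.card : ℝ) - 1 := by
        rw [← hc', hc]; exact_mod_cast h0
      rw [hc'] at h2
      have h4 : ((A.card : ℝ) - 1) ^ 2 * ((A.card : ℝ) ^ 2 * W w B) ≤
          ((A.card : ℝ) - 1) ^ 2 * ((m : ℝ) ^ 2 * W w A) := by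
        calc ((A.card : ℝ) - 1) ^ 2 * ((A.card : ℝ) ^ 2 * W w B)
            = (A.card : ℝ) ^ 2 * (((A.card : ℝ) - 1) ^ 2 * W w B) := by ring
          _ ≤ (A.card : ℝ) ^ 2 * ((m : ℝ) ^ 2 * W w (A.erase v)) :=
              mul_le_mul_of_nonneg_left h2 (by positivity)
          _ = (m : ℝ) ^ 2 * ((A.card : ℝ) ^ 2 * W w (A.erase v)) := by ring
          _ ≤ (m : ℝ) ^ 2 * (((A.card : ℝ) - 1) ^ 2 * W w A) :=
              mul_le_mul_of_nonneg_left h1 (by positivity)
          _ = _ := by ring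
      exact le_of_mul_le_mul_left h4 (by positivity)

end Pool.Agent.J6H76.MulEnergy
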