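import Mathlib
import Pool.Agent.J6H76.MulEnergy.Energy
import Pool.Agent.J6H76.MulEnergy.Thin
import Pool.Agent.J6H76.MulEnergy.LowerAsym

set_option autoImplicit false

/-!
Sets of integers with small mixed multiplicative energy.
-/

namespace Pool.Agent.J6H76.MulEnergy

open Finset ArithmeticFunction Filter

/-- the off-diagonal weight -/
noncomputable def wN (N : ℕ) : ℕ × ℕ → ℝ := fun p => (pairE N p.1 p.2 : ℝ)

lemma wN_nonneg (N : ℕ) : ∀ p, 0 ≤ wN N p := fun p => by unfold wN; positivity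

lemma energy_eq_diag {B : Finset ℕ} {N : ℕ} (hB : B ⊆ Icc 1 N) :
    (energy B N : ℝ) = N * B.card + W (wN N) B := by
  rw [energy_eq]
  push_cast
  rw [← Finset.sum_product' (s := B) (t := B) (f := fun a c => (pairE N a c : ℝ)),
    ← Finset.diag_union_offDiag, Finset.sum_union (Finset.disjoint_diag_offDiag _)]
  congr 1
  rw [Finset.sum_diag]
  have : ∀ a ∈ B, ((pairE N a a : ℕ) : ℝ) = N := by
    intro a ha
    have := hB ha
    rw [Finset.mem_Icc] at this
    rw [pairE_self (by omega)]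
  rw [Finset.sum_congr rfl this, Finset.sum_const, nsmul_eq_mul, mul_comm]

lemma W_AA_le (N k : ℕ) : W (wN N) (AA N k) ≤
    4 ^ k * ∑ a ∈ Icc 1 N, ∑ c ∈ Icc 1 N, u a * u c * pairE N a c := by
  have hsub : (AA N k).offDiag ⊆ Icc 1 N ×ˢ Icc 1 N := by
    intro p hp
    rw [Finset.mem_offDiag] at hp
    rw [Finset.mem_product]
    exact ⟨(Finset.mem_filter.1 hp.1).1, (Finset.mem_filter.1 hp.2.1).1⟩
  rw [← Finset.sum_product', Finset.mul_sum]
  unfold W
  calc ∑ p ∈ (AA N k).offDiag, wN N p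
      ≤ ∑ p ∈ (AA N k).offDiag, 4 ^ k * (u p.1 * u p.2 * (pairE N p.1 p.2 : ℝ)) := by
        refine Finset.sum_le_sum fun p hp => ?_
        rw [Finset.mem_offDiag] at hp
        have h1 := (Finset.mem_filter.1 hp.1).2
        have h2 := (Finset.mem_filter.1 hp.2.1).2
        have h3 : (1 / 2 : ℝ) ^ k ≤ u p.1 := by
          unfold u
          exact pow_le_pow_of_le_one (by norm_num) (by norm_num) h1
        have h4 : (1 / 2 : ℝ) ^ k ≤ u p.2 := by
          unfold u
          exact pow_le_pow_of_le_one (by norm_num) (by norm_num) h2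
        have h5 : (1 : ℝ) ≤ 4 ^ k * (u p.1 * u p.2) := by
          calc (1 : ℝ) = 4 ^ k * ((1 / 2) ^ k * (1 / 2) ^ k) := by
                rw [← mul_pow, ← mul_pow]; norm_num
            _ ≤ 4 ^ k * (u p.1 * u p.2) := by
                apply mul_le_mul_of_nonneg_left _ (by positivity)
                exact mul_le_mul h3 h4 (by positivity) (u_pos _).le
        unfold wN
        have h6 : (0 : ℝ) ≤ pairE N p.1 p.2 := by positivity
        calc (pairE N p.1 p.2 : ℝ) = 1 * pairE N p.1 p.2 := (one_mul _).symm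
          _ ≤ (4 ^ k * (u p.1 * u p.2)) * pairE N p.1 p.2 := mul_le_mul_of_nonneg_right h5 h6
          _ = _ := by ring
    _ ≤ ∑ p ∈ Icc 1 N ×ˢ Icc 1 N, 4 ^ k * (u p.1 * u p.2 * (pairE N p.1 p.2 : ℝ)) := by
        refine Finset.sum_le_sum_of_subset_of_nonneg hsub fun p _ _ => ?_
        have p2 := u_pos p.1
        have p3 := u_pos p.2
        positivity

lemma eventually_C {C κ : ℝ} (hκ : 0 < κ) : ∀ᶠ L : ℝ in atTop,
    C * (1 + L) ≤ Real.exp (κ * L) := by
  have h1 : Tendsto (fun L : ℝ => Real.exp (κ * L) / L ^ 2) atTop atTop := by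
    have h2 := Real.tendsto_exp_div_pow_atTop 2
    have h3 : Tendsto (fun L : ℝ => κ * L) atTop atTop := tendsto_id.const_mul_atTop hκ
    have h4 := (h2.comp h3).const_mul_atTop (show 0 < κ ^ 2 by positivity)
    refine h4.congr' ?_
    filter_upwards [eventually_gt_atTop 0] with L hL
    simp only [Function.comp]
    field_simp
  filter_upwards [h1.eventually_ge_atTop 1, eventually_ge_atTop (2 * |C|), eventually_ge_atTop 1]
    with L h1 h2 h3
  rw [le_div_iff₀ (by positivity)] at h1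
  have h4 := le_abs_self C
  have h5 := abs_nonneg C
  nlinarith

/-- Main estimate. -/
theorem main_estimate {α η : ℝ} (hα : (1 - Real.log 2) / 2 < α) (hη : 1 / 4 - α < η) :
    ∀ᶠ N : ℕ in atTop, ∃ B : Finset ℕ, B ⊆ Icc 1 N ∧
      B.card = ⌊(N : ℝ) * Real.log N ^ (-α)⌋₊ ∧
      (energy B N : ℝ) ≤ N * B.card * (1 + Real.log N ^ η) := by
  set s : ℝ := (1 - Real.log 2) / 2 with hs
  set ε : ℝ := min ((α - s) / 2) ((η - (1 / 4 - α)) / 4) with hε
  have hε0 : 0 < ε := lt_min (by linarith) (by linarith)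
  have hε1 : ε ≤ (α - s) / 2 := min_le_left _ _
  have hε2 : ε ≤ (η - (1 / 4 - α)) / 4 := min_le_right _ _
  set κ : ℝ := η - (1 / 4 - α) - 2 * ε with hκ
  have hκ0 : 0 < κ := by rw [hκ]; linarith
  obtain ⟨C, hC0, hC⟩ := weighted_energy_le
  have htend : Tendsto (fun N : ℕ => Real.log (Real.log (N : ℝ))) atTop atTop :=
    Real.tendsto_log_atTop.comp (Real.tendsto_log_atTop.comp tendsto_natCast_atTop_atTop)
  filter_upwards [htend.eventually (eventually_C (C := C) hκ0), eventually_ge_atTop 3,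
    AA_lower hε0] with N hN1 hN3 hA
  have hN3' : (3 : ℝ) ≤ N := by exact_mod_cast hN3
  have hN0 : (0 : ℝ) < N := by linarith
  have hlog1 : 1 ≤ Real.log N := by
    rw [Real.le_log_iff_exp_le (by linarith)]
    have := Real.exp_one_lt_d9
    linarith
  set l : ℝ := Real.log N with hl
  have hl0 : 0 < l := by linarith
  set L : ℝ := Real.log l with hL
  have hL0 : 0 ≤ L := Real.log_nonneg hlog1
  have hexpL : ∀ t : ℝ, l ^ t = Real.exp (t * L) := fun t => by
    rw [Real.rpow_def_of_pos hl0, mul_comm]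
  set k : ℕ := ⌊L / 2⌋₊ with hk
  set A := AA N k with hAdef
  set m : ℕ := ⌊(N : ℝ) * l ^ (-α)⌋₊ with hm
  have hmle : (m : ℝ) ≤ N * l ^ (-α) := Nat.floor_le (by positivity)
  have hA0 : 0 < (N : ℝ) * l ^ (-s - ε) := by positivity
  have hA' : (N : ℝ) * l ^ (-s - ε) ≤ A.card := hA
  have hmA : m ≤ A.card := by
    have h1 : (N : ℝ) * l ^ (-α) ≤ N * l ^ (-s - ε) := by
      apply mul_le_mul_of_nonneg_left _ hN0.le
      exact Real.rpow_le_rpow_of_exponent_le hlog1 (by linarith)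
    have h2 : (m : ℝ) ≤ A.card := (hmle.trans h1).trans hA'
    exact_mod_cast h2
  obtain ⟨B, hBA, hBm, hBW⟩ := exists_thin (wN_nonneg N) (A.card - m) A m (by omega)
  have hBN : B ⊆ Icc 1 N := hBA.trans (Finset.filter_subset _ _)
  refine ⟨B, hBN, hBm, ?_⟩
  rw [energy_eq_diag hBN]
  -- bound of W
  have hWA : W (wN N) A ≤ l ^ (Real.log 2) *
      (C * ((N : ℝ) ^ 2 * l ^ (-(3 / 4) : ℝ) * (1 + L))) := by
    refine (W_AA_le N k).trans ?_
    have h4k : (4 : ℝ) ^ k ≤ l ^ (Real.log 2) := by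
      have h1 : (k : ℝ) ≤ L / 2 := Nat.floor_le (by linarith)
      have h2 : (4 : ℝ) ^ k = Real.exp (k * (2 * Real.log 2)) := by
        rw [Real.exp_nat_mul, two_mul, Real.exp_add, Real.exp_log (by norm_num)]
        norm_num
      rw [h2, hexpL]
      apply Real.exp_le_exp.2
      have := Real.log_two_gt_d9
      nlinarith
    have hnn : 0 ≤ ∑ a ∈ Icc 1 N, ∑ c ∈ Icc 1 N, u a * u c * pairE N a c := by
      refine Finset.sum_nonneg fun a _ => Finset.sum_nonneg fun c _ => ?_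
      have p2 := u_pos a
      have p3 := u_pos c
      positivity
    exact mul_le_mul h4k (hC N hN3) hnn (by positivity)
  have hWB : W (wN N) B ≤ N * m * l ^ η := by
    have h1 : ((N : ℝ) * l ^ (-s - ε)) ^ 2 * W (wN N) B ≤ (m : ℝ) ^ 2 * W (wN N) A := by
      refine le_trans ?_ hBW
      apply mul_le_mul_of_nonneg_right _ (W_nonneg (wN_nonneg N) B)
      exact pow_le_pow_left₀ hA0.le hA' 2
    have h2 : (m : ℝ) ^ 2 * W (wN N) A ≤ (m * (N * l ^ (-α))) *
        (l ^ (Real.log 2) * (C * ((N : ℝ) ^ 2 * l ^ (-(3 / 4) : ℝ) * (1 + L)))) := by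
      apply mul_le_mul _ hWA (W_nonneg (wN_nonneg N) A) (by positivity)
      rw [sq]
      exact mul_le_mul_of_nonneg_left hmle (by positivity)
    have h3 : (m * (N * l ^ (-α))) *
        (l ^ (Real.log 2) * (C * ((N : ℝ) ^ 2 * l ^ (-(3 / 4) : ℝ) * (1 + L)))) ≤
        ((N : ℝ) * l ^ (-s - ε)) ^ 2 * (N * m * l ^ η) := by
      have e1 : l ^ (-α) * l ^ (Real.log 2) * l ^ (-(3 / 4) : ℝ) =
          (l ^ (-s - ε)) ^ 2 * l ^ (1 / 4 - α + 2 * ε) := by
        rw [← Real.rpow_natCast (l ^ (-s - ε)) 2, ← Real.rpow_mul hl0.le, ← Real.rpow_add hl0,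
          ← Real.rpow_add hl0, ← Real.rpow_add hl0]
        congr 1
        rw [hs]; push_cast; ring
      have e2 : C * (1 + L) * l ^ (1 / 4 - α + 2 * ε) ≤ l ^ η := by
        calc C * (1 + L) * l ^ (1 / 4 - α + 2 * ε) ≤
              Real.exp (κ * L) * l ^ (1 / 4 - α + 2 * ε) :=
              mul_le_mul_of_nonneg_right hN1 (by positivity)
          _ = l ^ η := by
              rw [hexpL, hexpL, ← Real.exp_add]
              congr 1
              rw [hκ]; ring
      calc (m * (N * l ^ (-α))) *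
          (l ^ (Real.log 2) * (C * ((N : ℝ) ^ 2 * l ^ (-(3 / 4) : ℝ) * (1 + L))))
          = (N : ℝ) ^ 2 * (N * m) * (C * (1 + L)) *
            (l ^ (-α) * l ^ (Real.log 2) * l ^ (-(3 / 4) : ℝ)) := by ring
        _ = (N : ℝ) ^ 2 * (N * m) * (l ^ (-s - ε)) ^ 2 *
            (C * (1 + L) * l ^ (1 / 4 - α + 2 * ε)) := by rw [e1]; ring
        _ ≤ (N : ℝ) ^ 2 * (N * m) * (l ^ (-s - ε)) ^ 2 * l ^ η :=
            mul_le_mul_of_nonneg_left e2 (by positivity)
        _ = ((N : ℝ) * l ^ (-s - ε)) ^ 2 * (N * m * l ^ η) := by ring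
    exact le_of_mul_le_mul_left (h1.trans (h2.trans h3)) (by positivity)
  rw [hBm]
  linarith

end Pool.Agent.J6H76.MulEnergy
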